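import Pool.Agent.Helper33.PT.Defs

/-!
# Plan T: the abstract statement
-/

set_option autoImplicit false

open Polynomial

namespace Pool.Agent.Helper33.PT

open Pool.Agent.Helper45.FR Pool.Agent.Helper33.PS

/-- **The abstract statement of Plan T** (characteristic `p`). `wm m` is the length of a window on
which no relation of bidegree `< m` between `z_j` and `σ z_j` is possible. -/
def PlanTAbs (p d n : ℕ) (wm : ℕ → ℕ) : Prop :=
  ∃ N : ℕ, ∀ (k K E V W : Type) [Field k] [IsAlgClosed k] [CharP k p] [Field K] [Field E]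
    [Algebra k K] [Algebra k E] [Algebra K E] [IsScalarTower k K E] (P : PSys k K V)
    (Q : PSys k E W), (∀ v, ResK k (P.pl v)) → (∀ w, ResK k (Q.pl w)) →
    (∀ v, ∃ y : K, y ≠ 0 ∧ (P.pl v).o y = 1) →
    (∀ y, P.D y = 0 → ∃ z : K, z ^ p = y) →
    ∀ gs : GalW P Q n, ∀ F G : K[X], IsRat F G d → ∀ x : ℕ → K, RatOrbit F G x N →
    (∃ i ≤ 2 * d + 1, ∀ c : K, c ^ p ≠ cr (x 0) (x 2) (x 1) (x i)) →
    (∀ (F' G' : K[X]) (z : ℕ → K) (m : ℕ), IsRat F' G' d → RatOrbit F' G' z (wm m) →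
      (ConstConj k F' G' d → ConstConj k F G d) →
      ∀ σ ∈ gs.G, (∃ y : K, σ (algebraMap K E y) ≠ algebraMap K E y) →
      ∀ q : Polynomial (Polynomial E), q ≠ 0 → q.natDegree < m → (∀ i, (q.coeff i).natDegree < m) →
      ∃ j ≤ wm m, (q.eval (C (σ (algebraMap K E (z j))))).eval (algebraMap K E (z j)) ≠ 0) →
    ConstConj k F G d

end Pool.Agent.Helper33.PT
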