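import Pool.Agent.Helper33.PS.Heights
import Pool.Agent.Helper33.PS.Ext
import Pool.Agent.Helper33.UB.RatInst
import Pool.Agent.Helper93.RatHev

/-!
# Plan T: common definitions

Determinants of the monomials of bidegree `< m`, energies, Galois extensions of place systems with
wild ramification.
-/

set_option autoImplicit false

open Finset Polynomial

namespace Pool.Agent.Helper33.PT

/-- the matrix of the monomials of bidegree `< m` -/
def PM {E ι : Type*} [Field E] (m : ℕ) (x y : ι → E) : Matrix ι (Fin m × Fin m) E :=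
  Matrix.of fun i ab => x i ^ (ab.1 : ℕ) * y i ^ (ab.2 : ℕ)

/-- the energy of a finite set: sum over the ordered pairs of distinct indices -/
noncomputable def En {E ι : Type*} [Field E] [DecidableEq ι] (v : DV E) (x : ι → E) (H : ι → ℝ)
    (q : ℝ) (S : Finset ι) : ℝ :=
  ∑ i ∈ S, ∑ j ∈ S with j ≠ i, ((v.o (x i - x j) : ℝ) - H i - H j + q)

/-- a Galois extension of place systems, with the wild ramification numbers -/
structure GalW {k K E V W : Type*} [Field k] [Field K] [Field E] [Algebra k K] [Algebra k E]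
    [Algebra K E] [IsScalarTower k K E] (P : PSys k K V) (Q : PSys k E W) (n : ℕ) where
  /-- the group (or a subset of it) -/
  G : Finset (E ≃ₐ[k] E)
  card_G : G.card ≤ n
  /-- action on places -/
  act : (E ≃ₐ[k] E) → W ≃ W
  act_spec : ∀ σ ∈ G, ∀ w, ∀ y : E, (Q.pl (act σ w)).o (σ y) = (Q.pl w).o y
  /-- restriction -/
  res : W → V
  /-- ramification index -/
  ram : W → ℕ
  ram_pos : ∀ w, 1 ≤ ram w
  ram_spec : ∀ w, ∀ y : K, y ≠ 0 → (Q.pl w).o (algebraMap K E y) = ram w * (P.pl (res w)).o y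
  fib : ∀ v, ∀ s : Finset W, (∀ w ∈ s, res w = v) → ∑ w ∈ s, ram w ≤ n
  /-- wild ramification number: `σ y / y = 1 + O(wild)` for `y` in `K`, when `σ` fixes `w` -/
  wild : (E ≃ₐ[k] E) → W → ℕ
  wild_spec : ∀ σ ∈ G, ∀ w, act σ w = w → 1 ≤ wild σ w → ∀ y : K, y ≠ 0 →
    (Q.pl w).ge (wild σ w) (σ (algebraMap K E y) / algebraMap K E y - 1)
  /-- bound for the error of the derivation -/
  e_le : ∀ v, 1 ≤ P.e v → ∃ w, res w = v ∧ ∃ s ⊆ G, s.Nonempty ∧ (∀ σ ∈ s, act σ w = w ∧
    ∃ y : K, σ (algebraMap K E y) ≠ algebraMap K E y) ∧ P.e v ≤ ∑ σ ∈ s, (wild σ w + ram w)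

end Pool.Agent.Helper33.PT
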