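import Pool.Agent.Helper33.PT.Defs
import Pool.Agent.Helper79.PT.Riccati
import Pool.Agent.Helper82.PT.Log
import Pool.Agent.Helper53.PT.Star
import Pool.Agent.Helper53.PT.Pair
import Pool.Agent.Helper98.PT.Win
import Pool.Agent.Helper36.PT.Mob
import Pool.Agent.Helper36.PT.Norm
import Pool.Agent.Helper36.PT.Level

/-!
# Plan T: the modules
-/

set_option autoImplicit false

open Finset Polynomial

namespace Pool.Agent.Helper33.PT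

open Pool.Agent.Helper45.FR Pool.Agent.Helper33.UB Pool.Agent.Helper51.RatTree Pool.Agent.Helper93.RatODE
  Pool.Agent.Helper33.PS Pool.Agent.Helper55.RD

/-- T-RIC: a relation on a dense subset of a long window gives a Riccati equation on the tail -/
theorem riccati_tail (d r : ℕ) (hd : 2 ≤ d) : ∃ n₀ : ℕ, ∀ {K : Type} [Field K] [DecidableEq K] {D : K → K}
    (_ : ∀ x y, D (x + y) = D x + D y) (_ : ∀ x y, D (x * y) = x * D y + y * D x)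
    {F G : K[X]} (_ : IsRat F G d) {x : ℕ → K} (_ : ∀ j, G.eval (x j) ≠ 0)
    (_ : ∀ j, x (j + 1) = F.eval (x j) / G.eval (x j)) (a w : ℕ) (_ : n₀ ≤ w)
    (_ : Set.InjOn x (Set.Icc a (a + w))) (s : Finset ℕ) (_ : s ⊆ Finset.Ico a (a + w))
    (_ : 9 * w ≤ 10 * s.card) (_ : Pool.Agent.Helper33.UB.Rel D r (s.image x)),
    ∃ i, a ≤ i ∧ i ≤ a + w ∧ ∃ α β γ : K, ∀ j, i ≤ j → D (x j) = α * x j ^ 2 + β * x j + γ :=
  Pool.Agent.Helper79.PT.riccati_tail d r hd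

/-- T-UNT: the coefficients of a normalised map are constants for `D` -/
theorem coeff_const_of_points {K : Type} [Field K] {D : K → K}
    (hadd : ∀ x y, D (x + y) = D x + D y) (hmul : ∀ x y, D (x * y) = x * D y + y * D x) {d : ℕ}
    {F G : K[X]} (hFG : IsRat F G d) (hnorm : ∃ i, F.coeff i = 1 ∨ G.coeff i = 1) (s : Finset K)
    (hs : 2 * d < s.card) (h : ∀ z ∈ s, D z = 0 ∧ G.eval z ≠ 0 ∧ D (F.eval z / G.eval z) = 0) :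
    ∀ i, D (F.coeff i) = 0 ∧ D (G.coeff i) = 0 :=
  Pool.Agent.Helper82.PT.coeff_const_of_points hadd hmul hFG hnorm s hs h

/-- T-LOG -/
theorem log_bound {k K V : Type} [Field k] [Field K] [Algebra k K] (P : PSys k K V) {y : K}
    (hy : P.D y ≠ 0) (S : Finset K) (hSD : ∀ z ∈ S, P.D z = 0) (X : Finset V)
    (hX : ∀ v ∉ X, ∀ z₁ ∈ S, ∀ z₂ ∈ S, ∀ z₃ ∈ S, z₁ ≠ z₂ → z₁ ≠ z₃ → z₂ ≠ z₃ →
      (P.pl v).o ((y - z₁) * (z₃ - z₂) / ((y - z₂) * (z₃ - z₁))) = 0)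
    {z₁ z₂ z₃ z₄ : K} (h₁ : z₁ ∈ S) (h₂ : z₂ ∈ S) (h₃ : z₃ ∈ S) (h₄ : z₄ ∈ S) (h12 : z₁ ≠ z₂)
    (h13 : z₁ ≠ z₃) (h14 : z₁ ≠ z₄) (h23 : z₂ ≠ z₃) (h24 : z₂ ≠ z₄) (h34 : z₃ ≠ z₄) :
    (∑ᶠ v, |(P.pl v).o ((z₁ - z₃) * (z₂ - z₄) / ((z₁ - z₄) * (z₂ - z₃)))|) ≤ 8 * (P.E + X.card) :=
  Pool.Agent.Helper82.PT.log_bound P hy S hSD X hX h₁ h₂ h₃ h₄ h12 h13 h14 h23 h24 h34

/-- T-WIN: from stars on the arithmetic progression to stars on consecutive windows, and the fixed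
places -/
theorem window_star (d n : ℕ) (hd : 2 ≤ d) (κ : ℝ) (hκ : 0 < κ) : ∃ m : ℕ,
    ∀ nw wm J : ℕ, 1 ≤ J → ∃ N' : ℕ,
    ∀ {k K E V W : Type} [Field k] [IsAlgClosed k] [Field K] [Field E] [Algebra k K] [Algebra k E]
    [Algebra K E] [IsScalarTower k K E] [DecidableEq K] (P : PSys k K V) (Q : PSys k E W)
    (_ : ∀ v, ResK k (P.pl v)) (_ : ∀ w, ResK k (Q.pl w)) (gs : GalW P Q n) (F G : K[X])
    (_ : IsRat F G d) (x : ℕ → K) (N : ℕ) (_ : RatOrbit F G x N) (c : GConst) (_ : c.C1 = 2) (M : ℝ)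
    (I : GInst P c N M) (_ : I.x = x) (i : ℕ) (_ : i + N' * J ≤ N) (S : Finset V)
    (_ : ∀ v ∈ S, ∃ ζ : PV (P.pl v), ∀ l l', l ≤ N' → l' ≤ N' → l ≠ l' →
      ζ.dir (x (i + l * J)) ≠ ζ.dir (x (i + l' * J))),
    ∃ Sb ⊆ S, (Sb.card : ℝ) ≤ κ * I.h ∧
      (∀ v ∈ S, v ∉ Sb → ∃ ζ : PV (P.pl v), ∀ a ≤ nw, ∀ b ≤ nw, a ≠ b →
        ζ.dir (x (i + a)) ≠ ζ.dir (x (i + b))) ∧
      ∀ σ ∈ gs.G, (∀ p : Polynomial (Polynomial E), p ≠ 0 → p.natDegree < m →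
          (∀ i, (p.coeff i).natDegree < m) → ∃ j, i ≤ j ∧ j ≤ i + wm ∧
          (p.eval (C (σ (algebraMap K E (x j))))).eval (algebraMap K E (x j)) ≠ 0) →
        ∀ R ⊆ S, (∀ v ∈ R, v ∉ Sb ∧ ∃ w, gs.res w = v ∧ gs.act σ w = w) →
          (R.card : ℝ) ≤ κ * I.h :=
  Pool.Agent.Helper98.PT.window_star d n hd κ hκ

/-- T-NORM -/
theorem exists_norm {k K V : Type} [Field k] [Infinite k] [Field K] [Algebra k K] (P : PSys k K V)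
    (hP : ∀ v, ResK k (P.pl v)) {d : ℕ} (hd : 1 ≤ d) {F G : K[X]} (hFG : IsRat F G d) {x : ℕ → K}
    {N : ℕ} (hx : RatOrbit F G x N) (hN : 2 * d + 2 ≤ N) {α β γ : ℕ} (hαβ : α ≠ β) (hαγ : α ≠ γ)
    (hβγ : β ≠ γ) (hα : α ≤ N) (hβ : β ≤ N) (hγ : γ ≤ N) :
    ∃ (F' G' : K[X]) (z : ℕ → K), IsRat F' G' d ∧ RatOrbit F' G' z N ∧
      (∃ i, F'.coeff i = 1 ∨ G'.coeff i = 1) ∧
      (∃ c : k, algebraMap k K c = z α) ∧ (∃ c : k, algebraMap k K c = z β) ∧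
      (∃ c : k, algebraMap k K c = z γ) ∧ (ConstConj k F' G' d → ConstConj k F G d) ∧
      ∀ i j l m, cr (z i) (z j) (z l) (z m) = cr (x i) (x j) (x l) (x m) :=
  Pool.Agent.Helper36.PT.exists_norm P hP hd hFG hx hN hαβ hαγ hβγ hα hβ hγ

/-- T-STEP: one Frobenius untwisting in fixed coordinates -/
theorem level_step {k K : Type} [Field k] [IsAlgClosed k] [Field K] [Algebra k K] (p : ℕ)
    [Fact p.Prime] [CharP k p] {d : ℕ} (hd : 1 ≤ d) {F G : K[X]} (hFG : IsRat F G d) {x : ℕ → K}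
    {N : ℕ} (hx : RatOrbit F G x N) (hnorm : ∃ i, F.coeff i = 1 ∨ G.coeff i = 1)
    (hF : ∀ i, ∃ c, c ^ p = F.coeff i) (hG : ∀ i, ∃ c, c ^ p = G.coeff i) (a N' : ℕ) (ha : a + N' ≤ N)
    (hD : ∀ j, ∃ c, c ^ p = x (a + j)) :
    ∃ (F₁ G₁ : K[X]) (z : ℕ → K), IsRat F₁ G₁ d ∧ RatOrbit F₁ G₁ z N' ∧
      (∃ i, F₁.coeff i = 1 ∨ G₁.coeff i = 1) ∧ (∀ j, z j ^ p = x (a + j)) ∧
      (∀ i, F₁.coeff i ^ p = F.coeff i) ∧ (∀ i, G₁.coeff i ^ p = G.coeff i) ∧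
      (ConstConj k F₁ G₁ d → ConstConj k F G d) :=
  Pool.Agent.Helper36.PT.level_step p hd hFG hx hnorm hF hG a N' ha hD

/-- T-SCALE -/
theorem gg_scale {K : Type} [Field K] (p : ℕ) [Fact p.Prime] [CharP K p] (v : DV K) {d : ℕ} (hd : 2 ≤ d)
    {F G F₁ G₁ : K[X]} (hFG : IsRat F G d) (hF : ∀ i, F₁.coeff i ^ p = F.coeff i)
    (hG : ∀ i, G₁.coeff i ^ p = G.coeff i) {x z : ℕ → K} {N N' a : ℕ} (hx : RatOrbit F G x N)
    (hz : RatOrbit F₁ G₁ z N') (hxz : ∀ j, z j ^ p = x (a + j)) (i j : ℕ) (hij : z i ≠ z j) :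
    gg v d F G (ratH v d F G) (x (a + i)) (x (a + j)) =
      p * gg v d F₁ G₁ (ratH v d F₁ G₁) (z i) (z j) :=
  Pool.Agent.Helper36.PT.gg_scale p v hd hFG hF hG hx hz hxz i j hij

end Pool.Agent.Helper33.PT
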