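import Pool.Agent.Helper33.PT.InstV
import Pool.Agent.Helper33.PT.Mods

/-!
# Plan T: the core inequality (1)
-/

set_option autoImplicit false

open Finset Polynomial

namespace Pool.Agent.Helper33.PT

open Pool.Agent.Helper33.UB Pool.Agent.Helper51.RatTree Pool.Agent.Helper55.RD
  Pool.Agent.Helper93.RatODE Pool.Agent.Helper45.FR Pool.Agent.Helper33.PS

section

variable {k K V : Type} [Field k] [Field K] [Algebra k K] [DecidableEq K] {P : PSys k K V}
  {c : GConst} {N : ℕ} {M : ℝ} (I : GInst P c N M)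

lemma not_close {n Nst : ℕ} (hN : n + Nst ≤ N) (hNst : 1 ≤ Nst) {v : V} (hv : v ∈ I.T)
    (hvr : v ∉ I.rel n Nst) (hε0 : I.ε v = 0) {b m : ℕ} (hb : b ≤ n) (hm : 1 ≤ m) (hdvd : m ∣ Nst) :
    I.g v b (b + m) < c.c1 := by
  classical
  by_contra hclose
  push Not at hclose
  apply hvr
  unfold GInst.rel
  refine mem_filter.mpr ⟨hv, Or.inr ⟨hε0, ?_⟩⟩
  obtain ⟨q, hq⟩ := hdvd
  have hq1 : 1 ≤ q := by
    rcases Nat.eq_zero_or_pos q with h | h
    · rw [h, mul_zero] at hq; omega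
    · exact h
  have h1 := I.persist_mul hv hε0 hm hclose (n := n) hb q hq1 (by
    rw [mul_comm q m, ← hq]; exact hN)
  rwa [mul_comm q m, ← hq] at h1

end

section wild

variable {k K E V W : Type} [Field k] [Field K] [Field E] [Algebra k K] [Algebra k E]
  [Algebra K E] [IsScalarTower k K E] {P : PSys k K V} {Q : PSys k E W} {n : ℕ}

/-- the error of the derivation in terms of the wild ramification and of the number of ramified
places -/
theorem E_le (gs : GalW P Q n) (T : Finset V) (hTe : ∀ v, v ∉ T → P.e v = 0) (B : ℝ) (hB : 0 ≤ B)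
    (hwild : ∀ σ ∈ gs.G, (∃ y : K, σ (algebraMap K E y) ≠ algebraMap K E y) →
      ∀ S : Finset W, (∀ w ∈ S, gs.act σ w = w) → (∑ w ∈ S, gs.wild σ w : ℝ) ≤ B) :
    (P.E : ℝ) ≤ n * B + n * n * (T.filter fun v => 1 ≤ P.e v).card := by
  classical
  set R := T.filter fun v => 1 ≤ P.e v with hR
  have hE : P.E = ∑ v ∈ R, P.e v := by
    unfold PSys.E
    apply sum_congr _ fun _ _ => rfl
    ext v
    rw [Set.Finite.mem_toFinset, hR, mem_filter, Set.mem_ofPred_eq]
    constructor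
    · intro hv
      refine ⟨?_, by omega⟩
      by_contra hvT
      exact hv (hTe v hvT)
    · rintro ⟨_, hv⟩
      omega
  have hex : ∀ v : R, ∃ w, gs.res w = v ∧ ∃ s ⊆ gs.G, s.Nonempty ∧ (∀ σ ∈ s, gs.act σ w = w ∧
      ∃ y : K, σ (algebraMap K E y) ≠ algebraMap K E y) ∧
      P.e v ≤ ∑ σ ∈ s, (gs.wild σ w + gs.ram w) := fun v =>
    gs.e_le v (mem_filter.mp v.2).2
  choose wv hres sv hsv hne hact hle using hex
  have hram : ∀ w, gs.ram w ≤ n := by
    intro w
    have := gs.fib (gs.res w) {w} (by simp)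
    simpa using this
  have h1 : (P.E : ℝ) ≤ ∑ v : R, (∑ σ ∈ sv v, (gs.wild σ (wv v) : ℝ) + n * n) := by
    rw [hE, ← sum_coe_sort R]
    push_cast
    apply sum_le_sum
    intro v _
    have h2 : (P.e v : ℝ) ≤ ∑ σ ∈ sv v, ((gs.wild σ (wv v) : ℝ) + gs.ram (wv v)) := by
      exact_mod_cast hle v
    rw [sum_add_distrib, sum_const, nsmul_eq_mul] at h2
    have h3 : ((sv v).card : ℝ) ≤ n := by exact_mod_cast (card_le_card (hsv v)).trans gs.card_G
    have h4 : ((gs.ram (wv v) : ℕ) : ℝ) ≤ n := by exact_mod_cast hram _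
    have h5 : ((sv v).card : ℝ) * gs.ram (wv v) ≤ n * n := by
      apply mul_le_mul h3 h4 (Nat.cast_nonneg _) (Nat.cast_nonneg _)
    linarith
  rw [sum_add_distrib, sum_const, card_univ, Fintype.card_coe, nsmul_eq_mul] at h1
  have h2 : ∑ v : R, ∑ σ ∈ sv v, (gs.wild σ (wv v) : ℝ) ≤ ∑ σ ∈ gs.G, B := by
    have h3 : ∀ v : R, ∑ σ ∈ sv v, (gs.wild σ (wv v) : ℝ) =
        ∑ σ ∈ gs.G, if σ ∈ sv v then (gs.wild σ (wv v) : ℝ) else 0 := by
      intro v
      rw [← sum_filter, filter_mem_eq_inter, inter_eq_right.mpr (hsv v)]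
    rw [sum_congr rfl fun v _ => h3 v, sum_comm]
    apply sum_le_sum
    intro σ hσ
    rw [← sum_filter]
    rcases (univ.filter fun v : R => σ ∈ sv v).eq_empty_or_nonempty with h0 | ⟨v₀, hv₀⟩
    · rw [h0, sum_empty]; exact hB
    · have h4 := hwild σ hσ (hact v₀ σ (mem_filter.mp hv₀).2).2
        ((univ.filter fun v : R => σ ∈ sv v).image wv) (by
          intro w hw
          obtain ⟨v, hv, rfl⟩ := mem_image.mp hw
          exact (hact v σ (mem_filter.mp hv).2).1)
      rw [sum_image] at h4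
      · exact h4
      · intro v _ v' _ e
        apply Subtype.ext
        rw [← hres v, ← hres v', e]
  rw [sum_const, nsmul_eq_mul] at h2
  have h3 : (gs.G.card : ℝ) * B ≤ n * B := by
    apply mul_le_mul_of_nonneg_right _ hB
    exact_mod_cast gs.card_G
  have h4 : (R.card : ℝ) * (n * n) = n * n * R.card := by ring
  linarith

/-- fixed places over ramified places -/
theorem ramified_fixed (gs : GalW P Q n) {v : V} (hv : 1 ≤ P.e v) :
    ∃ σ ∈ gs.G, (∃ y : K, σ (algebraMap K E y) ≠ algebraMap K E y) ∧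
      ∃ w, gs.res w = v ∧ gs.act σ w = w := by
  obtain ⟨w, hw, s, hs, ⟨σ, hσ⟩, hact, -⟩ := gs.e_le v hv
  exact ⟨σ, hs hσ, (hact σ hσ).2, w, hw, (hact σ hσ).1⟩

end wild

end Pool.Agent.Helper33.PT
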