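import Pool.Agent.Helper33.PT.Core1

/-!
# Plan T: the core inequality (2)
-/

set_option autoImplicit false

open Finset Polynomial

namespace Pool.Agent.Helper33.PT

open Pool.Agent.Helper33.UB Pool.Agent.Helper51.RatTree Pool.Agent.Helper55.RD
  Pool.Agent.Helper93.RatODE Pool.Agent.Helper45.FR Pool.Agent.Helper33.PS

section wild

variable {k K E V W : Type} [Field k] [Field K] [Field E] [Algebra k K] [Algebra k E]
  [Algebra K E] [IsScalarTower k K E] {P : PSys k K V} {Q : PSys k E W} {n : ℕ}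

theorem card_ramified (gs : GalW P Q n) (S Sb : Finset V) (B : ℝ) (hB : 0 ≤ B)
    (h3 : ∀ σ ∈ gs.G, (∃ y : K, σ (algebraMap K E y) ≠ algebraMap K E y) → ∀ R ⊆ S,
      (∀ v ∈ R, v ∉ Sb ∧ ∃ w, gs.res w = v ∧ gs.act σ w = w) → (R.card : ℝ) ≤ B)
    (X : Finset V) (hX : X ⊆ S) (hXe : ∀ v ∈ X, v ∉ Sb ∧ 1 ≤ P.e v) : (X.card : ℝ) ≤ n * B := by
  classical
  set G' := gs.G.filter fun σ => ∃ y : K, σ (algebraMap K E y) ≠ algebraMap K E y with hG'
  set Xs : (E ≃ₐ[k] E) → Finset V := fun σ => X.filter fun v => ∃ w, gs.res w = v ∧ gs.act σ w = w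
    with hXs
  have h1 : X ⊆ G'.biUnion Xs := by
    intro v hv
    obtain ⟨σ, hσ, hy, hw⟩ := ramified_fixed gs (hXe v hv).2
    exact mem_biUnion.mpr ⟨σ, mem_filter.mpr ⟨hσ, hy⟩, mem_filter.mpr ⟨hv, hw⟩⟩
  have h2 : (X.card : ℝ) ≤ ∑ σ ∈ G', ((Xs σ).card : ℝ) := by
    exact_mod_cast (card_le_card h1).trans card_biUnion_le
  have h4 : ∑ σ ∈ G', ((Xs σ).card : ℝ) ≤ ∑ σ ∈ G', B := by
    apply sum_le_sum
    intro σ hσ
    obtain ⟨hσ1, hσ2⟩ := mem_filter.mp hσ
    refine h3 σ hσ1 hσ2 (Xs σ) ((filter_subset _ _).trans hX) ?_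
    intro v hv
    obtain ⟨hv1, hv2⟩ := mem_filter.mp hv
    exact ⟨(hXe v hv1).1, hv2⟩
  rw [sum_const, nsmul_eq_mul] at h4
  have h5 : (G'.card : ℝ) * B ≤ n * B := by
    apply mul_le_mul_of_nonneg_right _ hB
    exact_mod_cast (card_le_card (filter_subset _ _)).trans gs.card_G
  linarith

end wild

/-- total badness -/
noncomputable def tb {k K V : Type} [Field k] [Field K] [Algebra k K] (P : PSys k K V) {d : ℕ}
    (hd : 2 ≤ d) {F G : K[X]} (hFG : IsRat F G d) (hres : resultant F G d d ≠ 0) {x : ℕ → K} {N : ℕ}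
    (hx : RatOrbit F G x N) (T : Finset V) : ℝ :=
  ∑ v ∈ T, ((rloc hd (P.pl v) hFG.dA hFG.dB hres hx).ε : ℝ)

/-- **The core theorem of Plan T.** -/
theorem t1core (d n : ℕ) (hd : 2 ≤ d) (wm : ℕ → ℕ) : ∃ (N : ℕ) (C₁ : ℝ), 0 ≤ C₁ ∧
    ∀ {k K E V W : Type} [Field k] [IsAlgClosed k] [Field K] [Field E] [Algebra k K] [Algebra k E]
    [Algebra K E] [IsScalarTower k K E] (P : PSys k K V) (Q : PSys k E W)
    (_ : ∀ v, ResK k (P.pl v)) (_ : ∀ w, ResK k (Q.pl w)) (gs : GalW P Q n) (F G : K[X])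
    (hFG : IsRat F G d) (hres : resultant F G d d ≠ 0) (x : ℕ → K) (hx : RatOrbit F G x N)
    (T : Finset V) (_ : RAdm P F G d (rX hx) T)
    (_ : ∀ m a, a + wm m ≤ N → ∀ σ ∈ gs.G, (∃ y : K, σ (algebraMap K E y) ≠ algebraMap K E y) →
      ∀ q : Polynomial (Polynomial E), q ≠ 0 → q.natDegree < m → (∀ i, (q.coeff i).natDegree < m) →
      ∃ j, a ≤ j ∧ j ≤ a + wm m ∧
        (q.eval (C (σ (algebraMap K E (x j))))).eval (algebraMap K E (x j)) ≠ 0),
    (P.E : ℝ) ≤ C₁ * tb P hd hFG hres hx T ∧ (tb P hd hFG hres hx T = 0 ∨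
      ∃ j₀ ≤ N, ∃ α β γ : K, ∀ j, j₀ ≤ j → P.D (x j) = α * x j ^ 2 + β * x j + γ) := by
  classical
  set c := ratConst d hd with hc
  set c0 : ℝ := c.c0 with hc0def
  have hc0 : 0 < c0 := c.hc0
  have hc01 : c0 ≤ 1 := c.hc01
  set n' : ℝ := max (n : ℝ) 1 with hn'
  have hn'1 : 1 ≤ n' := le_max_right _ _
  have hn'n : (n : ℝ) ≤ n' := le_max_left _ _
  have hn0 : (0 : ℝ) ≤ n := Nat.cast_nonneg n
  set M : ℝ := 64 * n' ^ 2 / c0 + 20 * n' ^ 2 with hM
  have hM0 : 0 < M := by positivity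
  set κ₀ : ℝ := c0 / (64 * n' ^ 2) with hκ₀
  have hκ₀0 : 0 < κ₀ := by positivity
  set κw : ℝ := c0 / (32 * n') with hκw
  have hκw0 : 0 < κw := by positivity
  set κs : ℕ → ℝ := fun W => c0 / (64 * n' ^ 3 * (W + 2)) with hκs
  have hκs0 : ∀ W, 0 < κs W := fun W => by simp only [hκs]; positivity
  have hκs1 : ∀ W, κs W ≤ 1 := fun W => by
    simp only [hκs]
    rw [div_le_one (by positivity)]
    have h1 : (1 : ℝ) ≤ 64 * n' ^ 3 * (W + 2) := by
      have h2 : (1 : ℝ) ≤ n' ^ 3 := one_le_pow₀ hn'1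
      have h3 : (0 : ℝ) ≤ W := Nat.cast_nonneg W
      nlinarith
    linarith
  obtain ⟨mp, N₀p, hpair⟩ := pair_bound d n hd κw hκw0
  have hwin := fun W => window_star d n hd (κs W) (hκs0 W)
  choose mW hmW using hwin
  have hric := fun R => riccati_tail d R hd
  choose nR hnR using hric
  choose NW0 hNW0 using hmW
  set NW : ℕ → ℕ → ℕ := fun W J => if h : 1 ≤ J then NW0 W (W + 1) (wm (mW W)) J h else 0 with hNW
  set wf : ℕ → ℕ := fun R => nR R + 3 * (R + 1) + 1 with hwf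
  set Fn : ℕ → ℕ → ℕ := fun W J => NW W J + wm (mW W) + wm mp + N₀p + 1 with hFn
  obtain ⟨N, hsel⟩ := selC c M hM0 κ₀ hκ₀0 wf (fun R => by simp only [hwf]; omega) Fn
  set Cr : ℝ := 1 / c.δ0 + c.C1 / c.c1 with hCr
  have hCr0 : 0 ≤ Cr := by
    have h1 := c.hδ0
    have h2 := c.hc1
    have h3 := c.hC1
    have : 0 < 1 / c.δ0 := by positivity
    have : 0 < c.C1 / c.c1 := div_pos (by linarith) h2
    positivity
  refine ⟨N, n' * κw + n' ^ 2 * (Cr + 1 / M + 1 + n'), by positivity, ?_⟩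
  intro k K E V W _ _ _ _ _ _ _ _ P Q hP hQ gs F G hFG hres x hx T hT hind
  set I := ratInstV (K := K) (P := P) hx hd hFG.cop hFG.dA hFG.dB hFG.top hres M T hT with hI
  obtain ⟨B⟩ := hsel P I
  have hh : tb P hd hFG hres hx T = I.h := rfl
  rw [hh]
  set h := I.h with hhdef
  have hh0 : 0 ≤ h := I.h_nonneg
  set κ := κs B.W with hκ
  have hκ0 : 0 < κ := hκs0 B.W
  have hJ := B.hJ
  have hN'1 : Fn B.W B.J ≤ B.N' := B.hN'
  have hFnv : Fn B.W B.J = NW B.W B.J + wm (mW B.W) + wm mp + N₀p + 1 := rfl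
  have hNWv : NW B.W B.J = NW0 B.W (B.W + 1) (wm (mW B.W)) B.J hJ := dif_pos hJ
  set Nw := NW0 B.W (B.W + 1) (wm (mW B.W)) B.J hJ with hNw
  have hn_le : B.n ≤ N := by have := B.hN; omega
  have hiN : B.i + B.W + B.N' * B.J < B.n := B.hi
  have hNwJ : Nw * B.J ≤ B.N' * B.J := Nat.mul_le_mul_right _ (by omega)
  have hN'J : B.N' ≤ B.N' * B.J := Nat.le_mul_of_pos_right _ (by omega)
  have hrelT : I.rel B.n B.Nst ⊆ I.T := by
    unfold GInst.rel; exact filter_subset _ _
  have hIT : I.T = T := rfl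
  -- directions
  have hdirS : ∀ s < B.W, ∀ v ∈ B.Ss s, ∃ ζ : PV (P.pl v), ∀ l l', l ≤ Nw → l' ≤ Nw → l ≠ l' →
      ζ.dir (x (B.i + s + l * B.J)) ≠ ζ.dir (x (B.i + s + l' * B.J)) := by
    intro s hs v hv
    refine exists_dirV (i := B.i + s) (N' := Nw) hx hd hFG.cop hFG.dA hFG.dB hFG.top hres M T hT hJ
      (by omega) (Or.inl ?_)
    obtain ⟨ζ, hζ⟩ := B.Ss_star s hs v hv
    exact ⟨ζ, fun l l' h1 h2 => hζ l l' h1 (by omega)⟩
  set R₀ := T.filter fun v => v ∉ I.rel B.n B.Nst ∧ I.ε v = 0 with hR₀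
  have hdir0 : ∀ v ∈ R₀, ∃ ζ : PV (P.pl v), ∀ l l', l ≤ Nw → l' ≤ Nw → l ≠ l' →
      ζ.dir (x (B.i + l * B.J)) ≠ ζ.dir (x (B.i + l' * B.J)) := by
    intro v hv
    obtain ⟨hv1, hv2, hv3⟩ := mem_filter.mp hv
    refine exists_dirV (i := B.i) (N' := Nw) hx hd hFG.cop hFG.dA hFG.dB hFG.top hres M T hT hJ
      (by omega) (Or.inr ⟨hv3, ?_⟩)
    intro l l' hll hl'
    have h1 : l' * B.J ≤ Nw * B.J := Nat.mul_le_mul_right _ hl'
    have h2 : (l' - l) * B.J ≤ l' * B.J := Nat.mul_le_mul_right _ (by omega)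
    have h3 : 1 ≤ (l' - l) * B.J := Nat.mul_pos (by omega) hJ
    have h4 : B.i + l' * B.J = B.i + l * B.J + (l' - l) * B.J := by
      rw [add_assoc, ← Nat.add_mul]
      congr 2
      omega
    have h5 : l * B.J ≤ l' * B.J := Nat.mul_le_mul_right _ (by omega)
    rw [h4]
    exact not_close I B.hN B.hNst hv1 hv2 hv3 (by omega) h3 (B.dvd _ h3 (by omega))
  -- windows
  have hwS : ∀ s, ∃ Sb : Finset V, s < B.W → Sb ⊆ B.Ss s ∧ (Sb.card : ℝ) ≤ κ * h ∧
      (∀ v ∈ B.Ss s, v ∉ Sb → ∃ ζ : PV (P.pl v), ∀ a ≤ B.W + 1, ∀ b ≤ B.W + 1, a ≠ b →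
        ζ.dir (x (B.i + s + a)) ≠ ζ.dir (x (B.i + s + b))) ∧
      ∀ σ ∈ gs.G, (∃ y : K, σ (algebraMap K E y) ≠ algebraMap K E y) → ∀ R ⊆ B.Ss s,
        (∀ v ∈ R, v ∉ Sb ∧ ∃ w, gs.res w = v ∧ gs.act σ w = w) → (R.card : ℝ) ≤ κ * h := by
    intro s
    by_cases hs : s < B.W
    · have hNwN : B.i + s + Nw * B.J ≤ N := by omega
      obtain ⟨Sb, h1, h2, h3, h4⟩ := hNW0 B.W (B.W + 1) (wm (mW B.W)) B.J hJ P Q hP hQ gs F G hFG x N hx _ rfl M I rfl (B.i + s)
        hNwN (B.Ss s) (hdirS s hs)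
      refine ⟨Sb, fun _ => ⟨h1, h2, h3, ?_⟩⟩
      intro σ hσ hy
      exact h4 σ hσ (fun p hp hp1 hp2 => hind (mW B.W) (B.i + s) (by omega) σ hσ hy p hp hp1 hp2)
    · exact ⟨∅, fun h => absurd h hs⟩
  choose Sb hSb using hwS
  have hNwN : B.i + Nw * B.J ≤ N := by omega
  obtain ⟨Sb0, hSb01, hSb02, -, hSb04⟩ := hNW0 B.W (B.W + 1) (wm (mW B.W)) B.J hJ P Q hP hQ gs F G hFG x N hx _ rfl M I rfl B.i
    hNwN R₀ hdir0
  have hSb04' : ∀ σ ∈ gs.G, (∃ y : K, σ (algebraMap K E y) ≠ algebraMap K E y) → ∀ R ⊆ R₀,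
        (∀ v ∈ R, v ∉ Sb0 ∧ ∃ w, gs.res w = v ∧ gs.act σ w = w) → (R.card : ℝ) ≤ κ * h :=
    fun σ hσ hy => hSb04 σ hσ
      (fun p hp hp1 hp2 => hind (mW B.W) B.i (by omega) σ hσ hy p hp hp1 hp2)
  have hκh : 0 ≤ κ * h := by positivity
  -- the ramified places
  set Ra := T.filter fun v => 1 ≤ P.e v with hRa
  have hEle : (P.E : ℝ) ≤ n * (κw * h) + n * n * Ra.card := by
    apply E_le gs T hT.e (κw * h) (by positivity)
    intro σ hσ hy S hS
    exact hpair P Q (fun v c hc => (hP v).const c hc) gs F G hFG x N (by omega) hx T hT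
      (fun v => rloc hd (P.pl v) hFG.dA hFG.dB hres hx) σ hσ 0 (wm mp) (by omega)
      (fun p hp hp1 hp2 => hind mp 0 (by omega) σ hσ hy p hp hp1 hp2) S hS
  -- ramified places outside `rel`, with `ε = 0`
  have hX0 : ((Ra.filter fun v => v ∉ I.rel B.n B.Nst ∧ I.ε v = 0).card : ℝ) ≤ κ * h + n * (κ * h) := by
    set X := Ra.filter fun v => v ∉ I.rel B.n B.Nst ∧ I.ε v = 0 with hX
    have h1 := card_ramified gs R₀ Sb0 (κ * h) hκh hSb04' (X \ Sb0) (by
      intro v hv
      obtain ⟨hv1, hv2⟩ := mem_filter.mp (mem_sdiff.mp hv).1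
      exact mem_filter.mpr ⟨(mem_filter.mp hv1).1, hv2⟩) (by
      intro v hv
      obtain ⟨hv1, hv2⟩ := mem_sdiff.mp hv
      exact ⟨hv2, (mem_filter.mp (mem_filter.mp hv1).1).2⟩)
    have h2 : (X.card : ℝ) ≤ (X \ Sb0).card + Sb0.card := by
      have := card_sdiff_add_card_inter X Sb0
      have h3 : (X ∩ Sb0).card ≤ Sb0.card := card_le_card inter_subset_right
      exact_mod_cast (by omega : X.card ≤ (X \ Sb0).card + Sb0.card)
    linarith
  have hnκ : (n : ℝ) * (κ * h) ≤ n' * (κ * h) := mul_le_mul_of_nonneg_right hn'n hκh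
  have hnκw : (n : ℝ) * (κw * h) ≤ n' * (κw * h) := mul_le_mul_of_nonneg_right hn'n (by positivity)
  have hnn : (n : ℝ) * n ≤ n' ^ 2 := by nlinarith
  constructor
  · -- the general bound
    have hcov : Ra ⊆ (I.rel B.n B.Nst ∪ T.filter fun v => M ≤ I.ε v) ∪
        (Ra.filter fun v => v ∉ I.rel B.n B.Nst ∧ I.ε v = 0) := by
      intro v hv
      by_cases hr : v ∈ I.rel B.n B.Nst
      · exact mem_union_left _ (mem_union_left _ hr)
      by_cases hεM : M ≤ I.ε v
      · exact mem_union_left _ (mem_union_right _ (mem_filter.mpr ⟨(mem_filter.mp hv).1, hεM⟩))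
      · refine mem_union_right _ (mem_filter.mpr ⟨hv, hr, ?_⟩)
        rcases (I.ε_nonneg v (mem_filter.mp hv).1).lt_or_eq with h1 | h1
        · exfalso
          apply hr
          unfold GInst.rel
          exact mem_filter.mpr ⟨(mem_filter.mp hv).1, Or.inl ⟨h1, not_le.mp hεM⟩⟩
        · exact h1.symm
    have h1 : (Ra.card : ℝ) ≤ Cr * h + h / M + (κ * h + n * (κ * h)) := by
      have h2 := card_le_card hcov
      have h3 := card_union_le (I.rel B.n B.Nst ∪ T.filter fun v => M ≤ I.ε v)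
        (Ra.filter fun v => v ∉ I.rel B.n B.Nst ∧ I.ε v = 0)
      have h4 := card_union_le (I.rel B.n B.Nst) (T.filter fun v => M ≤ I.ε v)
      have h5 : ((I.rel B.n B.Nst).card : ℝ) ≤ Cr * h := I.card_rel B.hN B.hNst
      have h6 := I.card_bad hM0 (T.filter fun v => M ≤ I.ε v) (filter_subset _ _)
        (fun v hv => (mem_filter.mp hv).2)
      have h7 : (Ra.card : ℝ) ≤ (I.rel B.n B.Nst).card + (T.filter fun v => M ≤ I.ε v).card +
          (Ra.filter fun v => v ∉ I.rel B.n B.Nst ∧ I.ε v = 0).card := by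
        exact_mod_cast (by omega : Ra.card ≤ (I.rel B.n B.Nst).card +
          (T.filter fun v => M ≤ I.ε v).card +
          (Ra.filter fun v => v ∉ I.rel B.n B.Nst ∧ I.ε v = 0).card)
      linarith
    have h2 : (Ra.card : ℝ) ≤ (Cr + 1 / M + 1 + n') * h := by
      have h3 : κ * h ≤ 1 * h := mul_le_mul_of_nonneg_right (hκs1 B.W) hh0
      have h4 : n' * (κ * h) ≤ n' * (1 * h) := mul_le_mul_of_nonneg_left h3 (by linarith)
      have h5 : h / M = 1 / M * h := by ring
      rw [h5] at h1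
      linarith
    have h3 : (n : ℝ) * n * Ra.card ≤ n' ^ 2 * ((Cr + 1 / M + 1 + n') * h) := by
      apply mul_le_mul hnn h2 (Nat.cast_nonneg _) (by positivity)
    linarith
  · -- the Riccati equation
    by_cases hrel : Pool.Agent.Helper33.UB.Rel P.D B.R (B.Λ.image x)
    · right
      have hwfv : wf B.R = nR B.R + 3 * (B.R + 1) + 1 := rfl
      have haN : B.a + wf B.R ≤ N := by
        have := B.haW
        omega
      obtain ⟨i, hi1, hi2, α, β, γ, hαβ⟩ := hnR B.R P.D_add P.D_mul hFG hx.ne hx.step B.a (wf B.R)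
        (by omega) (by
          intro i hi j hj e
          rw [Set.mem_Icc] at hi hj
          exact hx.inj i j (by omega) (by omega) e) B.Λ B.hΛ B.hΛc hrel
      exact ⟨i, by omega, α, β, γ, hαβ⟩
    · left
      obtain ⟨Y, hYΛ, hYc, hdet⟩ : ∃ Y ⊆ B.Λ, Y.card = 2 * (B.R + 1) ∧
          (hankel P.D (Y.image I.x) B.R).det ≠ 0 := by
        by_contra hcon
        push Not at hcon
        apply hrel
        apply dichotomy'
        intro Y hY hYc
        obtain ⟨s, hs, hsY⟩ := subset_image_iff.mp hY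
        have hsle : ∀ j ∈ s, j ≤ N := by
          intro j hj
          have h1 := mem_Ico.mp (B.hΛ (hs hj))
          have := B.haW
          omega
        have hsc : s.card = 2 * (B.R + 1) := by
          rw [← hsY] at hYc
          have h1 : (s.image x).card = s.card := card_image_of_injOn (I.injOn hsle)
          omega
        rw [← hsY]
        exact hcon s hs hsc
      set Sball := (range B.W).biUnion Sb with hSball
      have hSballT : Sball ⊆ I.T := by
        rw [hSball, biUnion_subset]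
        intro s hs
        exact ((hSb s (mem_range.mp hs)).1.trans (B.Ss_sub s)).trans hrelT
      have hSballc : (Sball.card : ℝ) ≤ B.W * (κ * h) := by
        have h1 : (Sball.card : ℝ) ≤ ∑ s ∈ range B.W, ((Sb s).card : ℝ) := by
          exact_mod_cast card_biUnion_le
        refine h1.trans ?_
        calc ∑ s ∈ range B.W, ((Sb s).card : ℝ) ≤ ∑ s ∈ range B.W, κ * h :=
              sum_le_sum fun s hs => (hSb s (mem_range.mp hs)).2.1
          _ = B.W * (κ * h) := by rw [sum_const, card_range, nsmul_eq_mul]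
      obtain ⟨Hg, Loss, hHT, hLT, hSbL, hLc, ham, hrest⟩ := B.am Y hYΛ hYc hdet Sball hSballT (by
        intro v hv hvS s hs hvs
        have hsW : s < B.W := by have := B.haW; omega
        have hvSb : v ∉ Sb s := fun h' => hvS (mem_biUnion.mpr ⟨s, mem_range.mpr hsW, h'⟩)
        obtain ⟨ζ, hζ⟩ := (hSb s hsW).2.2.1 v hvs hvSb
        apply star_of_dirs ζ
        intro y hy z hz hyz
        obtain ⟨j, hj, rfl⟩ := mem_image.mp hy
        obtain ⟨j', hj', rfl⟩ := mem_image.mp hz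
        have h1 := mem_Ico.mp (B.hΛ (hYΛ hj))
        have h2 := mem_Ico.mp (B.hΛ (hYΛ hj'))
        have hjj : j ≠ j' := fun e => hyz (by rw [e])
        have h3 := hζ (j - (B.i + s)) (by have := B.haW; omega) (j' - (B.i + s))
          (by have := B.haW; omega) (by omega)
        rw [show B.i + s + (j - (B.i + s)) = j by omega,
          show B.i + s + (j' - (B.i + s)) = j' by omega] at h3
        exact h3)
      -- the ramified places
      have hcov : Ra ⊆ (Hg ∪ Loss) ∪ ((range B.W).biUnion (fun s => Ra.filter fun v =>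
          v ∈ B.Ss s ∧ v ∉ Sb s) ∪ (Ra.filter fun v => v ∉ I.rel B.n B.Nst ∧ I.ε v = 0)) := by
        intro v hv
        by_cases h1 : v ∈ Hg
        · exact mem_union_left _ (mem_union_left _ h1)
        by_cases h2 : v ∈ Loss
        · exact mem_union_left _ (mem_union_right _ h2)
        rcases hrest v (mem_filter.mp hv).1 h1 h2 with ⟨s, hs, hvs⟩ | h3
        · have hsW : s < B.W := by have := B.haW; omega
          refine mem_union_right _ (mem_union_left _ (mem_biUnion.mpr ⟨s, mem_range.mpr hsW,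
            mem_filter.mpr ⟨hv, hvs, ?_⟩⟩))
          intro h'
          exact h2 (hSbL (mem_biUnion.mpr ⟨s, mem_range.mpr hsW, h'⟩))
        · exact mem_union_right _ (mem_union_right _ (mem_filter.mpr ⟨hv, h3⟩))
      have hXs : ∀ s ∈ range B.W, (((Ra.filter fun v => v ∈ B.Ss s ∧ v ∉ Sb s).card : ℕ) : ℝ) ≤
          n' * (κ * h) := by
        intro s hs
        refine le_trans ?_ hnκ
        apply card_ramified gs (B.Ss s) (Sb s) (κ * h) hκh (hSb s (mem_range.mp hs)).2.2.2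
        · intro v hv
          exact (mem_filter.mp hv).2.1
        · intro v hv
          exact ⟨(mem_filter.mp hv).2.2, (mem_filter.mp (mem_filter.mp hv).1).2⟩
      have hRac : (Ra.card : ℝ) ≤ Hg.card + Loss.card + B.W * (n' * (κ * h)) +
          (κ * h + n' * (κ * h)) := by
        have h1 := card_le_card hcov
        have h2 := card_union_le (Hg ∪ Loss) ((range B.W).biUnion (fun s => Ra.filter fun v =>
          v ∈ B.Ss s ∧ v ∉ Sb s) ∪ (Ra.filter fun v => v ∉ I.rel B.n B.Nst ∧ I.ε v = 0))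
        have h3 := card_union_le Hg Loss
        have h4 := card_union_le ((range B.W).biUnion (fun s => Ra.filter fun v =>
          v ∈ B.Ss s ∧ v ∉ Sb s)) (Ra.filter fun v => v ∉ I.rel B.n B.Nst ∧ I.ε v = 0)
        have h5 : ((((range B.W).biUnion (fun s => Ra.filter fun v =>
          v ∈ B.Ss s ∧ v ∉ Sb s)).card : ℕ) : ℝ) ≤ B.W * (n' * (κ * h)) := by
          have h6 : ((((range B.W).biUnion (fun s => Ra.filter fun v =>
            v ∈ B.Ss s ∧ v ∉ Sb s)).card : ℕ) : ℝ) ≤ ∑ s ∈ range B.W,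
            (((Ra.filter fun v => v ∈ B.Ss s ∧ v ∉ Sb s).card : ℕ) : ℝ) := by
            exact_mod_cast card_biUnion_le
          refine h6.trans ((sum_le_sum hXs).trans (le_of_eq ?_))
          rw [sum_const, card_range, nsmul_eq_mul]
        have h7 : (Ra.card : ℝ) ≤ Hg.card + Loss.card + (((range B.W).biUnion (fun s =>
            Ra.filter fun v => v ∈ B.Ss s ∧ v ∉ Sb s)).card + ((Ra.filter fun v =>
            v ∉ I.rel B.n B.Nst ∧ I.ε v = 0).card : ℕ)) := by
          exact_mod_cast (by omega : Ra.card ≤ Hg.card + Loss.card + (((range B.W).biUnion (fun s =>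
            Ra.filter fun v => v ∈ B.Ss s ∧ v ∉ Sb s)).card + (Ra.filter fun v =>
            v ∉ I.rel B.n B.Nst ∧ I.ε v = 0).card))
        linarith
      -- the final inequality
      have hWr : (0 : ℝ) ≤ B.W := Nat.cast_nonneg _
      have hE' : (P.E : ℝ) ≤ n' * (κw * h) + n' ^ 2 * (Hg.card + Loss.card + B.W * (n' * (κ * h)) +
          (κ * h + n' * (κ * h))) := by
        have h1 : (n : ℝ) * n * Ra.card ≤ n' ^ 2 * (Hg.card + Loss.card + B.W * (n' * (κ * h)) +
          (κ * h + n' * (κ * h))) := mul_le_mul hnn hRac (Nat.cast_nonneg _) (by positivity)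
        linarith
      have hn'2 : 1 ≤ n' ^ 2 := one_le_pow₀ hn'1
      have ham' : c0 / 2 * h + M / 10 * Hg.card ≤ 2 * (Loss.card + P.E) := ham
      have hLc' : (Loss.card : ℝ) ≤ κ₀ * h + h / M + B.W * (κ * h) := by linarith
      have hHg0 : (0 : ℝ) ≤ Hg.card := Nat.cast_nonneg _
      have e1 : κ₀ * h = c0 / (64 * n' ^ 2) * h := rfl
      have e2 : h / M ≤ c0 / (64 * n' ^ 2) * h := by
        rw [div_le_iff₀ hM0]
        have : 1 ≤ c0 / (64 * n' ^ 2) * M := by
          rw [hM, mul_add]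
          have h1 : c0 / (64 * n' ^ 2) * (64 * n' ^ 2 / c0) = 1 := by field_simp
          rw [h1]
          have : 0 ≤ c0 / (64 * n' ^ 2) * (20 * n' ^ 2) := by positivity
          linarith
        nlinarith
      have e3 : B.W * (κ * h) ≤ c0 / (64 * n' ^ 2) * h := by
        have h1 : B.W * κ ≤ c0 / (64 * n' ^ 2) := by
          change (B.W : ℝ) * (c0 / (64 * n' ^ 3 * (B.W + 2))) ≤ c0 / (64 * n' ^ 2)
          rw [mul_div_assoc', div_le_div_iff₀ (by positivity) (by positivity)]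
          have h2 : (B.W : ℝ) * c0 * (64 * n' ^ 2) ≤ (B.W + 2) * c0 * (64 * n' ^ 2) := by
            gcongr
            linarith
          have h3 : ((B.W : ℝ) + 2) * c0 * (64 * n' ^ 2) * 1 ≤ (B.W + 2) * c0 * (64 * n' ^ 2) * n' := by
            gcongr
          calc _ ≤ ((B.W : ℝ) + 2) * c0 * (64 * n' ^ 2) := h2
            _ ≤ (B.W + 2) * c0 * (64 * n' ^ 2) * n' := by linarith
            _ = c0 * (64 * n' ^ 3 * (B.W + 2)) := by ring
        calc B.W * (κ * h) = B.W * κ * h := by ring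
          _ ≤ c0 / (64 * n' ^ 2) * h := mul_le_mul_of_nonneg_right h1 hh0
      have e4 : B.W * (n' * (κ * h)) + (κ * h + n' * (κ * h)) ≤ c0 / (64 * n' ^ 2) * h := by
        have h1 : (B.W * n' + 1 + n') * κ ≤ c0 / (64 * n' ^ 2) := by
          change ((B.W : ℝ) * n' + 1 + n') * (c0 / (64 * n' ^ 3 * (B.W + 2))) ≤ c0 / (64 * n' ^ 2)
          rw [mul_div_assoc', div_le_div_iff₀ (by positivity) (by positivity)]
          have h2 : (B.W : ℝ) * n' + 1 + n' ≤ n' * (B.W + 2) := by linarith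
          have h3 : ((B.W : ℝ) * n' + 1 + n') * (c0 * (64 * n' ^ 2)) ≤
              n' * (B.W + 2) * (c0 * (64 * n' ^ 2)) := mul_le_mul_of_nonneg_right h2 (by positivity)
          calc _ = ((B.W : ℝ) * n' + 1 + n') * (c0 * (64 * n' ^ 2)) := by ring
            _ ≤ n' * (B.W + 2) * (c0 * (64 * n' ^ 2)) := h3
            _ = c0 * (64 * n' ^ 3 * (B.W + 2)) := by ring
        calc B.W * (n' * (κ * h)) + (κ * h + n' * (κ * h)) = (B.W * n' + 1 + n') * κ * h := by ring
          _ ≤ c0 / (64 * n' ^ 2) * h := mul_le_mul_of_nonneg_right h1 hh0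
      have e5 : n' * (κw * h) = c0 / 32 * h := by
        change n' * (c0 / (32 * n') * h) = _
        field_simp
      have e6 : n' ^ 2 * (c0 / (64 * n' ^ 2) * h) = c0 / 64 * h := by field_simp
      have e7 : c0 / (64 * n' ^ 2) * h ≤ c0 / 64 * h := by
        apply mul_le_mul_of_nonneg_right _ hh0
        apply div_le_div_of_nonneg_left hc0.le (by norm_num)
        linarith
      set t : ℝ := c0 / (64 * n' ^ 2) * h with ht
      have hL3 : (Loss.card : ℝ) ≤ 3 * t := by linarith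
      have hE2 : (P.E : ℝ) ≤ c0 / 32 * h + n' ^ 2 * Hg.card + 4 * (c0 / 64 * h) := by
        have h1 : n' ^ 2 * (Hg.card + Loss.card + B.W * (n' * (κ * h)) + (κ * h + n' * (κ * h))) ≤
            n' ^ 2 * (Hg.card + 4 * t) := by
          apply mul_le_mul_of_nonneg_left _ (by positivity)
          linarith
        have h2 : n' ^ 2 * (Hg.card + 4 * t) = n' ^ 2 * Hg.card + 4 * (n' ^ 2 * t) := by ring
        rw [h2, e6] at h1
        linarith
      have hM10 : 2 * n' ^ 2 * (Hg.card : ℝ) ≤ M / 10 * Hg.card := by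
        apply mul_le_mul_of_nonneg_right _ hHg0
        rw [hM]
        have : 0 ≤ 64 * n' ^ 2 / c0 := by positivity
        linarith
      have hfin : c0 / 2 * h ≤ 6 * (c0 / 64 * h) + c0 / 16 * h + 8 * (c0 / 64 * h) := by
        linarith
      have : c0 * h ≤ 0 := by linarith
      have hh1 : h ≤ 0 := by
        by_contra hneg
        push Not at hneg
        have : 0 < c0 * h := by positivity
        linarith
      exact le_antisymm hh1 hh0

end Pool.Agent.Helper33.PT
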