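import Pool.Agent.Helper33.PT.Lev2
import Pool.Agent.Helper33.PT.Abs
import Pool.Agent.Helper33.PS.Main

/-!
# Plan T: counting places
-/

set_option autoImplicit false

open Finset Polynomial

namespace Pool.Agent.Helper33.PT

open Pool.Agent.Helper33.UB Pool.Agent.Helper51.RatTree Pool.Agent.Helper55.RD
  Pool.Agent.Helper93.RatODE Pool.Agent.Helper45.FR Pool.Agent.Helper33.PS

section inst

variable {k K V : Type} [Field k] [Field K] [Algebra k K] {P : PSys k K V}
  {F G : K[X]} {x : ℕ → K} {N d : ℕ}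

lemma radm_mono {X : Finset K} {T T' : Finset V} (h : RAdm P F G d X T) (hT : T ⊆ T') :
    RAdm P F G d X T' :=
  ⟨fun v hv => h.e v fun h' => hv (hT h'), fun v hv => h.res v fun h' => hv (hT h'),
    fun v hv => h.G0 v fun h' => hv (hT h'), fun v hv => h.diff v fun h' => hv (hT h')⟩

variable [DecidableEq K]

/-- at the places without badness the Green function is a natural number -/
lemma g_good (h : RatOrbit F G x N) (hd : 2 ≤ d) (hFG : IsRat F G d)
    (hres : resultant F G d d ≠ 0) (M : ℝ) (T : Finset V) (hT : RAdm P F G d (rX h) T) {v : V} {i j : ℕ}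
    (hi : i ≤ N) (hj : j ≤ N) (hij : i ≠ j)
    (hε : (ratInstV h hd hFG.cop hFG.dA hFG.dB hFG.top hres M T hT).ε v = 0) :
    ∃ m : ℕ, (ratInstV h hd hFG.cop hFG.dA hFG.dB hFG.top hres M T hT).g v i j = m := by
  have hne : x i ≠ x j := fun e => hij (h.inj i j hi hj e)
  have h1 := (rloc hd (P.pl v) hFG.dA hFG.dB hres h).close _ (mem_rX h i) _ (mem_rX h j) hne
  have hε0 : ((rloc hd (P.pl v) hFG.dA hFG.dB hres h).ε : ℝ) = 0 := hε
  rw [hε0, mul_zero] at h1
  have h2 := abs_nonpos_iff.mp h1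
  obtain ⟨m, hm⟩ := Int.eq_ofNat_of_zero_le (gp_nonneg' (v := P.pl v)
    (a := (rloc hd (P.pl v) hFG.dA hFG.dB hres h).a) (r := (rloc hd (P.pl v) hFG.dA hFG.dB hres h).r) hne)
  refine ⟨m, ?_⟩
  rw [g_eq_gg]
  rw [hm] at h2
  push_cast at h2
  linarith

/-- number of places where a pair is close -/
lemma card_pos_g (h : RatOrbit F G x N) (hd : 2 ≤ d) (hFG : IsRat F G d)
    (hres : resultant F G d d ≠ 0) (M : ℝ) (T : Finset V) (hT : RAdm P F G d (rX h) T) {i j : ℕ}
    (hi : i ≤ N) (hj : j ≤ N) (hij : i ≠ j) :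
    ((T.filter fun v => 0 < (ratInstV h hd hFG.cop hFG.dA hFG.dB hFG.top hres M T hT).g v i j).card : ℝ) ≤
      3 * (ratInstV h hd hFG.cop hFG.dA hFG.dB hFG.top hres M T hT).h := by
  classical
  set I := ratInstV h hd hFG.cop hFG.dA hFG.dB hFG.top hres M T hT with hI
  have hsub : (T.filter fun v => 0 < I.g v i j) ⊆ (T.filter fun v => 1 ≤ I.ε v) ∪
      (T.filter fun v => 1 ≤ I.g v i j) := by
    intro v hv
    obtain ⟨hvT, hpos⟩ := mem_filter.mp hv
    rcases (I.ε_nonneg v hvT).lt_or_eq with h1 | h1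
    · exact mem_union_left _ (mem_filter.mpr ⟨hvT, I.disc v hvT h1⟩)
    · obtain ⟨m, hm⟩ := g_good h hd hFG hres M T hT (v := v) hi hj hij h1.symm
      refine mem_union_right _ (mem_filter.mpr ⟨hvT, ?_⟩)
      have hm' : I.g v i j = m := hm
      rw [hm'] at hpos ⊢
      have : 0 < m := by exact_mod_cast hpos
      exact_mod_cast this
  have h1 := I.card_bad (t := 1) one_pos (T.filter fun v => 1 ≤ I.ε v) (filter_subset _ _)
    (fun v hv => (mem_filter.mp hv).2)
  have h2 := I.card_close hi hj hij (T.filter fun v => 1 ≤ I.g v i j) (filter_subset _ _)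
    (fun v hv => (mem_filter.mp hv).2)
  have h3 : ((T.filter fun v => 0 < I.g v i j).card : ℝ) ≤ (T.filter fun v => 1 ≤ I.ε v).card +
      (T.filter fun v => 1 ≤ I.g v i j).card := by
    exact_mod_cast (card_le_card hsub).trans (card_union_le _ _)
  have h4 : (noOde (ratConst d hd) N).C1 / (noOde (ratConst d hd) N).c1 * I.h = 2 * I.h := by
    change (2 : ℝ) / 1 * I.h = 2 * I.h
    ring
  rw [h4] at h2
  rw [div_one] at h1
  linarith

/-- orders of cross ratios -/
lemma o_cross (h : RatOrbit F G x N) (hd : 2 ≤ d) (hFG : IsRat F G d)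
    (hres : resultant F G d d ≠ 0) (M : ℝ) (T : Finset V) (hT : RAdm P F G d (rX h) T) (v : V)
    {i j l m : ℕ} (hil : x i ≠ x l) (hjm : x j ≠ x m) (him : x i ≠ x m) (hjl : x j ≠ x l) :
    (((P.pl v).o ((x i - x l) * (x j - x m) / ((x i - x m) * (x j - x l))) : ℤ) : ℝ) =
      (ratInstV h hd hFG.cop hFG.dA hFG.dB hFG.top hres M T hT).g v i l +
      (ratInstV h hd hFG.cop hFG.dA hFG.dB hFG.top hres M T hT).g v j m -
      (ratInstV h hd hFG.cop hFG.dA hFG.dB hFG.top hres M T hT).g v i m -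
      (ratInstV h hd hFG.cop hFG.dA hFG.dB hFG.top hres M T hT).g v j l := by
  have n1 := sub_ne_zero.mpr hil
  have n2 := sub_ne_zero.mpr hjm
  have n3 := sub_ne_zero.mpr him
  have n4 := sub_ne_zero.mpr hjl
  rw [DV.o_div _ _ _ (mul_ne_zero n1 n2) (mul_ne_zero n3 n4), (P.pl v).mul _ _ n1 n2,
    (P.pl v).mul _ _ n3 n4]
  unfold GInst.g
  push_cast
  change _ = (((P.pl v).o (x i - x l) : ℝ) + _ + _) + (((P.pl v).o (x j - x m) : ℝ) + _ + _) -
    (((P.pl v).o (x i - x m) : ℝ) + _ + _) - (((P.pl v).o (x j - x l) : ℝ) + _ + _)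
  ring

end inst

end Pool.Agent.Helper33.PT
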