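import Pool.Agent.Helper33.PT.Final1

/-!
# Plan T: the comparison of heights
-/

set_option autoImplicit false

open Finset Polynomial

namespace Pool.Agent.Helper33.PT

open Pool.Agent.Helper33.UB Pool.Agent.Helper51.RatTree Pool.Agent.Helper55.RD
  Pool.Agent.Helper93.RatODE Pool.Agent.Helper45.FR Pool.Agent.Helper33.PS

/-- **The comparison.** `x` jumps at `js`, its tail from `A` on is the `p ^ S`-th power of `z`. -/
theorem compare {k K V : Type} [Field k] [Field K] [Algebra k K] [DecidableEq K] (p : ℕ) [Fact p.Prime]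
    [CharP K p] (P : PSys k K V) {d : ℕ} (hd : 2 ≤ d) {F G F' G' : K[X]} (hFG : IsRat F G d)
    (hFG' : IsRat F' G' d) (hres : resultant F G d d ≠ 0) (hres' : resultant F' G' d d ≠ 0)
    {x z : ℕ → K} {N N' : ℕ} (hx : RatOrbit F G x N) (hz : RatOrbit F' G' z N')
    (S A n₁ js : ℕ) (hS : 1 ≤ S) (hzx : ∀ j, z j ^ (p ^ S) = x (A + j))
    (hgg : ∀ (v : DV K) (i j : ℕ), z i ≠ z j → gg v d F G (ratH v d F G) (x (A + i)) (x (A + j)) =
        (p : ℝ) ^ S * gg v d F' G' (ratH v d F' G') (z i) (z j))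
    (T : Finset V) (hT : RAdm P F G d (rX hx) T) (hT' : RAdm P F' G' d (rX hz) T)
    (hN : 2 * A + js + n₁ + (ratConst d hd).N0 + 1 ≤ N)
    (hN' : A + js + n₁ + (ratConst d hd).N0 + 1 ≤ N') (hjs : P.D (x js) ≠ 0) (C₁ c₁ : ℝ)
    (hE : (P.E : ℝ) ≤ C₁ * tb P hd hFG' hres' hz T)
    (hstar : ∃ i ∈ range n₁, ∃ j ∈ range n₁, ∃ l ∈ range n₁, ∃ m ∈ range n₁,
      i ≠ j ∧ i ≠ l ∧ i ≠ m ∧ j ≠ l ∧ j ≠ m ∧ l ≠ m ∧
      c₁ * tb P hd hFG' hres' hz T ≤ ∑ v ∈ T,
        |(ratInstV hz hd hFG'.cop hFG'.dA hFG'.dB hFG'.top hres' 1 T hT').g v i l +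
        (ratInstV hz hd hFG'.cop hFG'.dA hFG'.dB hFG'.top hres' 1 T hT').g v j m -
        (ratInstV hz hd hFG'.cop hFG'.dA hFG'.dB hFG'.top hres' 1 T hT').g v i m -
        (ratInstV hz hd hFG'.cop hFG'.dA hFG'.dB hFG'.top hres' 1 T hT').g v j l|) :
    (p : ℝ) ^ S * (c₁ * tb P hd hFG' hres' hz T) ≤
      8 * (C₁ + 3 * ((n₁ + 1) ^ 2 + ((ratConst d hd).N0 + 1) ^ 2)) * tb P hd hFG' hres' hz T := by
  set c := ratConst d hd with hc
  set I₀ := ratInstV (K := K) (P := P) hx hd hFG.cop hFG.dA hFG.dB hFG.top hres 1 T hT with hI₀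
  set I₁ := ratInstV (K := K) (P := P) hz hd hFG'.cop hFG'.dA hFG'.dB hFG'.top hres' 1 T hT' with hI₁
  have hh : tb P hd hFG' hres' hz T = I₁.h := rfl
  rw [hh] at hE hstar ⊢
  set h := I₁.h with hhdef
  have hh0 : 0 ≤ h := I₁.h_nonneg
  have hp0 : (0 : ℝ) < p := by exact_mod_cast (Fact.out : p.Prime).pos
  have hpS : (0 : ℝ) < (p : ℝ) ^ S := pow_pos hp0 S
  obtain ⟨i, hi, j, hj, l, hl, m, hm, hij, hil, him, hjl, hjm, hlm, hbig⟩ := hstar
  rw [mem_range] at hi hj hl hm
  have hzne : ∀ a b, a < n₁ + c.N0 + 1 → b < n₁ + c.N0 + 1 → a ≠ b → z a ≠ z b := by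
    intro a b ha hb hab e
    exact hab (hz.inj a b (by omega) (by omega) e)
  have hxne : ∀ a b, a ≤ N → b ≤ N → a ≠ b → x a ≠ x b := by
    intro a b ha hb hab e
    exact hab (hx.inj a b ha hb e)
  -- Green functions of the two levels
  have hg : ∀ (v : V) (a b : ℕ), a ≤ N' → b ≤ N' → a ≠ b →
      I₀.g v (A + a) (A + b) = (p : ℝ) ^ S * I₁.g v a b := by
    intro v a b ha hb hab
    rw [hI₀, hI₁, g_eq_gg, g_eq_gg]
    exact hgg (P.pl v) a b (fun e => hab (hz.inj a b ha hb e))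
  -- the exceptional places
  classical
  set J0 : Finset ℕ := insert js ((range n₁).image fun a => A + a) with hJ0
  have hJ0le : ∀ u ∈ J0, u ≤ A + js + n₁ := by
    intro u hu
    rcases mem_insert.mp hu with rfl | hu
    · omega
    · obtain ⟨a, ha, rfl⟩ := mem_image.mp hu
      rw [mem_range] at ha
      omega
  have hJ0c : J0.card ≤ n₁ + 1 := by
    refine (card_insert_le _ _).trans ?_
    have : ((range n₁).image fun a => A + a).card ≤ n₁ := by
      refine card_image_le.trans ?_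
      rw [card_range]
    omega
  set X : Finset V := T.filter fun v => I₀.ε v ≠ 0 ∨ ∃ u ∈ J0, ∃ w ∈ J0, u < w ∧ 1 ≤ I₀.g v u w with hX
  set Y : ℕ → ℕ → Finset V := fun a b => T.filter fun v => 0 < I₁.g v a b with hY
  have hYc : ∀ a b, a ≤ N' → b ≤ N' → a ≠ b → ((Y a b).card : ℝ) ≤ 3 * h := fun a b ha hb hab =>
    card_pos_g hz hd hFG' hres' 1 T hT' ha hb hab
  set PA : Finset (ℕ × ℕ) := (J0 ×ˢ J0).filter fun q => q.1 ≠ q.2 with hPA
  set PB : Finset (ℕ × ℕ) := ((range (c.N0 + 1)) ×ˢ (range (c.N0 + 1))).filter fun q => q.1 ≠ q.2 with hPB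
  have hXsub : X ⊆ (PA.biUnion fun q => Y q.1 q.2) ∪ (PB.biUnion fun q => Y q.1 q.2) := by
    intro v hv
    obtain ⟨hvT, hvb⟩ := mem_filter.mp hv
    by_cases hε : I₀.ε v = 0
    · obtain ⟨u, hu, w, hw, huw, hgu⟩ := hvb.resolve_left (fun h' => h' hε)
      have h1 := hJ0le u hu
      have h2 := hJ0le w hw
      have h3 : c.c1 ≤ I₀.g v u w := hgu
      have h4 := I₀.persist_iter hvT hε huw h3 A (by omega)
      have h5 : (1 : ℝ) ≤ I₀.g v (A + u) (A + w) := by
        rw [Nat.add_comm A u, Nat.add_comm A w]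
        exact h4
      rw [hg v u w (by omega) (by omega) (by omega)] at h5
      have h6 : 0 < I₁.g v u w := by
        by_contra hneg
        push Not at hneg
        have : (p : ℝ) ^ S * I₁.g v u w ≤ 0 := mul_nonpos_of_nonneg_of_nonpos hpS.le hneg
        linarith
      exact mem_union_left _ (mem_biUnion.mpr ⟨(u, w), mem_filter.mpr ⟨mem_product.mpr ⟨hu, hw⟩,
        by change u ≠ w; omega⟩, mem_filter.mpr ⟨hvT, h6⟩⟩)
    · have hεpos : 0 < I₀.ε v := lt_of_le_of_ne (I₀.ε_nonneg v hvT) (Ne.symm hε)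
      obtain ⟨a, ha, b, hb, hab, hgab⟩ := I₀.lb v hvT ((range (c.N0 + 1)).image fun a => A + a) (by
        intro a ha
        obtain ⟨a', ha', rfl⟩ := mem_image.mp ha
        rw [mem_range] at ha'
        omega) (by
        rw [card_image_of_injective _ (fun a b e => Nat.add_left_cancel e), card_range]
        change c.N0 < c.N0 + 1
        omega)
      obtain ⟨a', ha', rfl⟩ := mem_image.mp ha
      obtain ⟨b', hb', rfl⟩ := mem_image.mp hb
      have ha'' := mem_range.mp ha'
      have hb'' := mem_range.mp hb'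
      have hab' : a' ≠ b' := fun e => hab (by rw [e])
      have h1 : 0 < I₀.g v (A + a') (A + b') := by
        have h2 : 0 < (noOde c N).c0 * I₀.ε v := mul_pos (noOde c N).hc0 hεpos
        exact lt_of_lt_of_le h2 hgab
      rw [hg v a' b' (by omega) (by omega) hab'] at h1
      have h6 : 0 < I₁.g v a' b' := by
        by_contra hneg
        push Not at hneg
        have : (p : ℝ) ^ S * I₁.g v a' b' ≤ 0 := mul_nonpos_of_nonneg_of_nonpos hpS.le hneg
        linarith
      exact mem_union_right _ (mem_biUnion.mpr ⟨(a', b'), mem_filter.mpr ⟨mem_product.mpr ⟨ha', hb'⟩,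
        hab'⟩, mem_filter.mpr ⟨hvT, h6⟩⟩)
  have hXc : (X.card : ℝ) ≤ 3 * ((n₁ + 1) ^ 2 + (c.N0 + 1) ^ 2) * h := by
    have h1 : (X.card : ℝ) ≤ ∑ q ∈ PA, ((Y q.1 q.2).card : ℝ) + ∑ q ∈ PB, ((Y q.1 q.2).card : ℝ) := by
      have h2 := (card_le_card hXsub).trans (card_union_le _ _)
      have h3 : (PA.biUnion fun q => Y q.1 q.2).card ≤ ∑ q ∈ PA, (Y q.1 q.2).card := card_biUnion_le
      have h4 : (PB.biUnion fun q => Y q.1 q.2).card ≤ ∑ q ∈ PB, (Y q.1 q.2).card := card_biUnion_le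
      exact_mod_cast h2.trans (Nat.add_le_add h3 h4)
    have h2 : ∑ q ∈ PA, ((Y q.1 q.2).card : ℝ) ≤ PA.card * (3 * h) := by
      rw [← nsmul_eq_mul, ← sum_const]
      apply sum_le_sum
      intro q hq
      obtain ⟨hq1, hq2⟩ := mem_filter.mp hq
      rw [mem_product] at hq1
      exact hYc _ _ (by have := hJ0le _ hq1.1; omega) (by have := hJ0le _ hq1.2; omega) hq2
    have h3 : ∑ q ∈ PB, ((Y q.1 q.2).card : ℝ) ≤ PB.card * (3 * h) := by
      rw [← nsmul_eq_mul, ← sum_const]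
      apply sum_le_sum
      intro q hq
      obtain ⟨hq1, hq2⟩ := mem_filter.mp hq
      rw [mem_product, mem_range, mem_range] at hq1
      exact hYc _ _ (by omega) (by omega) hq2
    have h4 : (PA.card : ℝ) ≤ (n₁ + 1) ^ 2 := by
      have h5 : PA.card ≤ (n₁ + 1) ^ 2 := by
        refine (card_le_card (filter_subset _ _)).trans ?_
        rw [card_product, pow_two]
        exact Nat.mul_le_mul hJ0c hJ0c
      exact_mod_cast h5
    have h5 : (PB.card : ℝ) ≤ (c.N0 + 1) ^ 2 := by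
      have h6 : PB.card ≤ (c.N0 + 1) ^ 2 := by
        refine (card_le_card (filter_subset _ _)).trans ?_
        rw [card_product, card_range, pow_two]
      exact_mod_cast h6
    have h6 : (PA.card : ℝ) * (3 * h) ≤ (n₁ + 1) ^ 2 * (3 * h) :=
      mul_le_mul_of_nonneg_right h4 (by positivity)
    have h7 : (PB.card : ℝ) * (3 * h) ≤ (c.N0 + 1) ^ 2 * (3 * h) :=
      mul_le_mul_of_nonneg_right h5 (by positivity)
    linarith
  -- the logarithmic bound
  set Sset : Finset K := (range n₁).image fun a => x (A + a) with hSset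
  have hSD : ∀ y ∈ Sset, P.D y = 0 := by
    intro y hy
    obtain ⟨a, ha, rfl⟩ := mem_image.mp hy
    rw [← hzx a]
    obtain ⟨S', rfl⟩ : ∃ S', S = S' + 1 := ⟨S - 1, by omega⟩
    rw [pow_succ, pow_mul]
    exact D_const p P.D_add P.D_mul _
  have hAne : ∀ a, a < n₁ → js ≠ A + a := by
    intro a ha e
    apply hjs
    rw [e]
    exact hSD _ (mem_image_of_mem _ (mem_range.mpr ha))
  have hlog := log_bound P hjs Sset hSD X (by
    intro v hv z₁ h₁ z₂ h₂ z₃ h₃ n12 n13 n23
    obtain ⟨a, ha, rfl⟩ := mem_image.mp h₁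
    obtain ⟨b, hb, rfl⟩ := mem_image.mp h₂
    obtain ⟨e, he, rfl⟩ := mem_image.mp h₃
    rw [mem_range] at ha hb he
    have hab : a ≠ b := fun h' => n12 (by rw [h'])
    have hae : a ≠ e := fun h' => n13 (by rw [h'])
    have hbe : b ≠ e := fun h' => n23 (by rw [h'])
    have hja := hAne a ha
    have hjb := hAne b hb
    have q1 := hxne js (A + a) (by omega) (by omega) hja
    have q2 := hxne (A + e) (A + b) (by omega) (by omega) (by omega)
    have q3 := hxne js (A + b) (by omega) (by omega) hjb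
    have q4 := hxne (A + e) (A + a) (by omega) (by omega) (by omega)
    by_cases hvT : v ∈ T
    · have hnb : I₀.ε v = 0 ∧ ∀ u ∈ J0, ∀ w ∈ J0, u < w → I₀.g v u w < 1 := by
        by_contra hcon
        apply hv
        refine mem_filter.mpr ⟨hvT, ?_⟩
        by_cases hε : I₀.ε v = 0
        · right
          push Not at hcon
          exact hcon hε
        · exact Or.inl hε
      have hg0 : ∀ u ∈ J0, ∀ w ∈ J0, u ≠ w → I₀.g v u w = 0 := by
        have key : ∀ u ∈ J0, ∀ w ∈ J0, u < w → I₀.g v u w = 0 := by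
          intro u hu w hw huw
          have h1 := hnb.2 u hu w hw huw
          obtain ⟨mm, hmm⟩ := g_good hx hd hFG hres 1 T hT (v := v) (i := u) (j := w)
            (by have := hJ0le u hu; omega) (by have := hJ0le w hw; omega) (by omega) hnb.1
          have hmm' : I₀.g v u w = mm := hmm
          rw [hmm'] at h1 ⊢
          have : mm < 1 := by exact_mod_cast h1
          have : mm = 0 := by omega
          rw [this, Nat.cast_zero]
        intro u hu w hw huw
        rcases lt_or_gt_of_ne huw with h1 | h1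
        · exact key u hu w hw h1
        · rw [I₀.g_comm]
          exact key w hw u hu h1
      have m0 : js ∈ J0 := mem_insert_self _ _
      have m1 : ∀ a, a < n₁ → A + a ∈ J0 := fun a ha =>
        mem_insert_of_mem (mem_image_of_mem _ (mem_range.mpr ha))
      have h1 := o_cross hx hd hFG hres 1 T hT v (i := js) (j := A + e) (l := A + a) (m := A + b)
        q1 q2 q3 q4
      have e1 : I₀.g v js (A + a) = 0 := hg0 js m0 _ (m1 a ha) hja
      have e2 : I₀.g v (A + e) (A + b) = 0 := hg0 _ (m1 e he) _ (m1 b hb) (by omega)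
      have e3 : I₀.g v js (A + b) = 0 := hg0 js m0 _ (m1 b hb) hjb
      have e4 : I₀.g v (A + e) (A + a) = 0 := hg0 _ (m1 e he) _ (m1 a ha) (by omega)
      rw [← hI₀, e1, e2, e3, e4] at h1
      have h2 : (((P.pl v).o ((x js - x (A + a)) * (x (A + e) - x (A + b)) /
        ((x js - x (A + b)) * (x (A + e) - x (A + a)))) : ℤ) : ℝ) = 0 := by rw [h1]; ring
      exact_mod_cast h2
    · have hdiff : ∀ u w, x u ≠ x w → (P.pl v).o (x u - x w) = 0 := fun u w huw =>
        hT.diff v hvT _ (mem_rX hx u) _ (mem_rX hx w) huw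
      have n1 := sub_ne_zero.mpr q1
      have n2 := sub_ne_zero.mpr q2
      have n3 := sub_ne_zero.mpr q3
      have n4 := sub_ne_zero.mpr q4
      rw [DV.o_div _ _ _ (mul_ne_zero n1 n2) (mul_ne_zero n3 n4), (P.pl v).mul _ _ n1 n2,
        (P.pl v).mul _ _ n3 n4, hdiff _ _ q1, hdiff _ _ q2, hdiff _ _ q3, hdiff _ _ q4]
      norm_num)
    (z₁ := x (A + i)) (z₂ := x (A + j)) (z₃ := x (A + l)) (z₄ := x (A + m))
    (mem_image_of_mem _ (mem_range.mpr hi)) (mem_image_of_mem _ (mem_range.mpr hj))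
    (mem_image_of_mem _ (mem_range.mpr hl)) (mem_image_of_mem _ (mem_range.mpr hm))
    (hxne _ _ (by omega) (by omega) (by omega)) (hxne _ _ (by omega) (by omega) (by omega))
    (hxne _ _ (by omega) (by omega) (by omega)) (hxne _ _ (by omega) (by omega) (by omega))
    (hxne _ _ (by omega) (by omega) (by omega)) (hxne _ _ (by omega) (by omega) (by omega))
  set Xc : K := (x (A + i) - x (A + l)) * (x (A + j) - x (A + m)) /
    ((x (A + i) - x (A + m)) * (x (A + j) - x (A + l))) with hXcdef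
  have hXc0 : Xc ≠ 0 := by
    apply div_ne_zero
    · exact mul_ne_zero (sub_ne_zero.mpr (hxne _ _ (by omega) (by omega) (by omega)))
        (sub_ne_zero.mpr (hxne _ _ (by omega) (by omega) (by omega)))
    · exact mul_ne_zero (sub_ne_zero.mpr (hxne _ _ (by omega) (by omega) (by omega)))
        (sub_ne_zero.mpr (hxne _ _ (by omega) (by omega) (by omega)))
  have hterm : ∀ v ∈ T, (p : ℝ) ^ S * |I₁.g v i l + I₁.g v j m - I₁.g v i m - I₁.g v j l| =
      ((|(P.pl v).o Xc| : ℤ) : ℝ) := by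
    intro v _
    have h1 := o_cross hx hd hFG hres 1 T hT v (i := A + i) (j := A + j) (l := A + l) (m := A + m)
      (hxne _ _ (by omega) (by omega) (by omega)) (hxne _ _ (by omega) (by omega) (by omega))
      (hxne _ _ (by omega) (by omega) (by omega)) (hxne _ _ (by omega) (by omega) (by omega))
    rw [← hI₀, ← hXcdef, hg v i l (by omega) (by omega) hil, hg v j m (by omega) (by omega) hjm,
      hg v i m (by omega) (by omega) him, hg v j l (by omega) (by omega) hjl] at h1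
    rw [Int.cast_abs, h1, ← abs_of_pos hpS, ← abs_mul, abs_of_pos hpS]
    congr 1
    ring
  have hsum : ∑ v ∈ T, |(P.pl v).o Xc| ≤ ∑ᶠ v, |(P.pl v).o Xc| := by
    have hfin : (Function.support fun v => |(P.pl v).o Xc|).Finite := by
      apply (P.ord_finite Xc hXc0).subset
      intro v hv
      rw [Function.mem_support] at hv
      exact fun h' => hv (by simp [h'])
    rw [finsum_eq_sum_of_support_subset (s := T ∪ hfin.toFinset) _ (by
      intro v hv
      rw [coe_union]
      exact Or.inr (by rw [Set.Finite.coe_toFinset]; exact hv))]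
    exact sum_le_sum_of_subset_of_nonneg subset_union_left fun v _ _ => abs_nonneg _
  have h1 : (p : ℝ) ^ S * (c₁ * h) ≤ ((∑ᶠ v, |(P.pl v).o Xc| : ℤ) : ℝ) := by
    calc (p : ℝ) ^ S * (c₁ * h) ≤ (p : ℝ) ^ S *
          ∑ v ∈ T, |I₁.g v i l + I₁.g v j m - I₁.g v i m - I₁.g v j l| :=
          mul_le_mul_of_nonneg_left hbig hpS.le
      _ = ((∑ v ∈ T, |(P.pl v).o Xc| : ℤ) : ℝ) := by
          rw [mul_sum, Int.cast_sum]
          exact sum_congr rfl hterm
      _ ≤ ((∑ᶠ v, |(P.pl v).o Xc| : ℤ) : ℝ) := by exact_mod_cast hsum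
  have h2 : ((∑ᶠ v, |(P.pl v).o Xc| : ℤ) : ℝ) ≤ 8 * ((P.E : ℝ) + X.card) := by exact_mod_cast hlog
  have h3 : 8 * ((P.E : ℝ) + X.card) ≤ 8 * (C₁ + 3 * ((n₁ + 1) ^ 2 + (c.N0 + 1) ^ 2)) * h := by
    linarith
  linarith

end Pool.Agent.Helper33.PT
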