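import Pool.Agent.Helper33.PT.Final2

/-!
# Plan T: the abstract theorem
-/

set_option autoImplicit false

open Finset Polynomial

namespace Pool.Agent.Helper33.PT

open Pool.Agent.Helper33.UB Pool.Agent.Helper51.RatTree Pool.Agent.Helper55.RD
  Pool.Agent.Helper93.RatODE Pool.Agent.Helper45.FR Pool.Agent.Helper33.PS

/-- **The abstract theorem of Plan T.** -/
theorem planT (p : ℕ) [Fact p.Prime] (d n : ℕ) (hd : 2 ≤ d) (wm : ℕ → ℕ) : PlanTAbs p d n wm := by
  classical
  obtain ⟨N₀, C₁, hC₁, hcore⟩ := t1core d n hd wm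
  obtain ⟨n₁, c₁, hc₁, hstar⟩ := exists_big_cross 2 (ratConst d hd).c0 (by norm_num)
    (ratConst d hd).hc0 (ratConst d hd).N0
  set N₁ := max N₀ (2 * d + 1) with hN₁
  have hN₀N₁ : N₀ ≤ N₁ := le_max_left _ _
  have hdN₁ : 2 * d + 1 ≤ N₁ := le_max_right _ _
  set Ct : ℝ := 8 * (C₁ + 3 * ((n₁ + 1) ^ 2 + ((ratConst d hd).N0 + 1) ^ 2)) with hCt
  have hp1 : (1 : ℝ) < p := by exact_mod_cast (Fact.out : p.Prime).one_lt
  have hp0 : (0 : ℝ) < p := by linarith
  obtain ⟨S₀, hS₀⟩ := pow_unbounded_of_one_lt (Ct / c₁) hp1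
  set S := S₀ + 1 with hS
  have hpS : Ct / c₁ < (p : ℝ) ^ S := by
    refine hS₀.trans_le ?_
    rw [hS, pow_succ]
    exact le_mul_of_one_le_right (pow_pos hp0 _).le hp1.le
  have hpS' : Ct < (p : ℝ) ^ S * c₁ := by rwa [div_lt_iff₀ hc₁] at hpS
  set U := S * N₁ + n₁ + (ratConst d hd).N0 + 2 * d + 10 with hU
  set N := 3 * U with hN
  refine ⟨N, ?_⟩
  intro k K E V W _ _ _ _ _ _ _ _ _ P Q hP hQ hunif hker gs Fo Go hFGo xo hxo hjump hind
  haveI : CharP K p := charP_of_injective_algebraMap (algebraMap k K).injective p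
  haveI : Infinite k := IsAlgClosed.instInfinite
  by_contra hnc
  -- normalisation
  obtain ⟨F, G, x, hFG, hx, hnorm, cα, cβ, cγ, hconj, hcr⟩ := exists_norm P hP (by omega : 1 ≤ d)
    hFGo hxo (by omega : 2 * d + 2 ≤ N) (α := N) (β := N - 1) (γ := N - 2) (by omega) (by omega)
    (by omega) le_rfl (by omega) (by omega)
  -- the jump
  obtain ⟨js, hjs, hDjs⟩ : ∃ js ≤ 2 * d + 1, P.D (x js) ≠ 0 := by
    by_contra hcon
    push Not at hcon
    obtain ⟨i, hi, hi2⟩ := hjump
    have h1 := D_cr_zero P.D_add P.D_mul (hcon 0 (by omega)) (hcon 2 (by omega)) (hcon 1 (by omega))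
      (hcon i hi)
    obtain ⟨c, hc⟩ := hker _ h1
    rw [hcr 0 2 1 i] at hc
    exact hi2 c hc
  -- the core inequality for all levels
  have hT1 : ∀ (F' G' : K[X]) (z : ℕ → K) (N' : ℕ) (hFG' : IsRat F' G' d)
      (hres' : resultant F' G' d d ≠ 0) (hz : RatOrbit F' G' z N') (_ : N₁ ≤ N')
      (_ : ConstConj k F' G' d → ConstConj k Fo Go d) (T : Finset V) (_ : RAdm P F' G' d (rX hz) T),
      (P.E : ℝ) ≤ C₁ * tb P hd hFG' hres' hz T ∧ 0 < tb P hd hFG' hres' hz T ∧
      ∃ j₀ ≤ N₁, ∃ a b c : K, ∀ j, j₀ ≤ j → P.D (z j) = a * z j ^ 2 + b * z j + c := by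
    intro F' G' z N' hFG' hres' hz hN' hc' T hT
    have hz0 : RatOrbit F' G' z N₀ := orbit_mono hz (by omega)
    obtain ⟨h1, h2⟩ := hcore P Q hP hQ gs F' G' hFG' hres' z hz0 T hT (by
      intro m a ha σ hσ hy q hq hq1 hq2
      obtain ⟨j, hj, hj2⟩ := hind F' G' (fun j => z (a + j)) m hFG' (orbit_shift hz0 a (wm m) ha) hc'
        σ hσ hy q hq hq1 hq2
      exact ⟨a + j, by omega, by omega, hj2⟩)
    have hne : tb P hd hFG' hres' hz T ≠ 0 := by
      intro h0
      exact hnc (hc' (conj_of_h hz hd hFG' (by omega)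
        (ratInstV hz hd hFG'.cop hFG'.dA hFG'.dB hFG'.top hres' 1 T hT) rfl h0))
    have hnn : 0 ≤ tb P hd hFG' hres' hz T :=
      (ratInstV hz hd hFG'.cop hFG'.dA hFG'.dB hFG'.top hres' 1 T hT).h_nonneg
    refine ⟨h1, lt_of_le_of_ne hnn (Ne.symm hne), ?_⟩
    rcases h2 with h2 | ⟨j₀, hj₀, h2⟩
    · exact absurd h2 hne
    · exact ⟨j₀, hj₀.trans hN₀N₁, h2⟩
  -- the levels
  have hSN : S * N₁ + 2 * d + 2 ≤ N := by omega
  obtain ⟨F', G', z, A, hA, hFG', hz, hnorm', hzx, hconj', hgg⟩ := exists_level p P hker hd hFG hx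
    hnorm N₁ S hSN (α := N) (β := N - 1) (γ := N - 2) (by omega) (by omega)
    (by omega) (by omega) (by omega) (by omega) le_rfl (by omega) (by omega) cα cβ cγ (by
      intro F' G' z N' hFG' hz hN' hc'
      have hres' : resultant F' G' d d ≠ 0 := resultant_ne_zero_of_isRat (by omega) hFG'
      obtain ⟨T, hT⟩ := exists_radm P (d := d) hres' (rX hz) (fun y hy => (rX_spec hz y hy).1)
      exact (hT1 F' G' z N' hFG' hres' hz hN' (fun h => hconj (hc' h)) T hT).2.2) S le_rfl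
  have hres : resultant F G d d ≠ 0 := resultant_ne_zero_of_isRat (by omega) hFG
  have hres' : resultant F' G' d d ≠ 0 := resultant_ne_zero_of_isRat (by omega) hFG'
  obtain ⟨T₀, hT₀⟩ := exists_radm P (d := d) hres (rX hx) (fun y hy => (rX_spec hx y hy).1)
  obtain ⟨T₁, hT₁⟩ := exists_radm P (d := d) hres' (rX hz) (fun y hy => (rX_spec hz y hy).1)
  set T := T₀ ∪ T₁ with hTdef
  have hT : RAdm P F G d (rX hx) T := radm_mono hT₀ subset_union_left
  have hT' : RAdm P F' G' d (rX hz) T := radm_mono hT₁ subset_union_right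
  have hN₁' : N₁ ≤ S * N₁ := Nat.le_mul_of_pos_left _ (by omega)
  have hlen : N₁ ≤ N - S * N₁ := by omega
  obtain ⟨hE, hpos, -⟩ := hT1 F' G' z (N - S * N₁) hFG' hres' hz hlen
    (fun h => hconj (hconj' h)) T hT'
  have hcmp := compare p P hd hFG hFG' hres hres' hx hz S A n₁ js (by omega) hzx hgg T hT hT'
    (by omega) (by omega) hDjs C₁ c₁ hE (by
      have h1 := hstar T (ratInstV hz hd hFG'.cop hFG'.dA hFG'.dB hFG'.top hres' 1 T hT').ε
        (ratInstV hz hd hFG'.cop hFG'.dA hFG'.dB hFG'.top hres' 1 T hT').g (range n₁)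
        (ratInstV hz hd hFG'.cop hFG'.dA hFG'.dB hFG'.top hres' 1 T hT').ε_nonneg
        (ratInstV hz hd hFG'.cop hFG'.dA hFG'.dB hFG'.top hres' 1 T hT').g_comm
        (by
          intro i hi j hj hij
          rw [mem_range] at hi hj
          exact (ratInstV hz hd hFG'.cop hFG'.dA hFG'.dB hFG'.top hres' 1 T hT').sum_g (by omega)
            (by omega) hij)
        (by
          intro v hv i hi j hj hij
          rw [mem_range] at hi hj
          exact (ratInstV hz hd hFG'.cop hFG'.dA hFG'.dB hFG'.top hres' 1 T hT').lower v hv i j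
            (by omega) (by omega) hij)
        (by
          intro v hv s' hs' hc'
          refine (ratInstV hz hd hFG'.cop hFG'.dA hFG'.dB hFG'.top hres' 1 T hT').lb v hv s' ?_ hc'
          intro i hi
          have := mem_range.mp (hs' hi)
          omega)
        (by rw [card_range])
      exact h1)
  have h1 : (p : ℝ) ^ S * c₁ * tb P hd hFG' hres' hz T ≤ Ct * tb P hd hFG' hres' hz T := by
    calc (p : ℝ) ^ S * c₁ * tb P hd hFG' hres' hz T
        = (p : ℝ) ^ S * (c₁ * tb P hd hFG' hres' hz T) := by ring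
      _ ≤ _ := hcmp
  have h2 := le_of_mul_le_mul_right h1 hpos
  linarith

end Pool.Agent.Helper33.PT
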