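import Pool.Agent.Helper33.PT.SelC3
import Pool.Agent.Helper33.UB.RatInst
import Pool.Agent.Helper33.PS.BlockDir

/-!
# Plan T: the global instance attached to a long orbit, any characteristic
-/

set_option autoImplicit false

open Finset Polynomial

namespace Pool.Agent.Helper33.PT

open Pool.Agent.Helper33.UB Pool.Agent.Helper51.RatTree Pool.Agent.Helper55.RD
  Pool.Agent.Helper93.RatODE Pool.Agent.Helper45.FR

variable {k K V : Type} [Field k] [Field K] [Algebra k K] {P : PSys k K V}
  {F G : K[X]} {x : ℕ → K} {N d : ℕ} [DecidableEq K]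

/-- the instance, without the differential equations -/
noncomputable def ratInstV (h : RatOrbit F G x N) (hd : 2 ≤ d) (hcop : IsCoprime F G)
    (hF : F.natDegree ≤ d) (hG : G.natDegree ≤ d) (htop : F.coeff d ≠ 0 ∨ G.coeff d ≠ 0)
    (hres : resultant F G d d ≠ 0) (M : ℝ) (T : Finset V) (hT : RAdm P F G d (rX h) T) :
    GInst P (noOde (ratConst d hd) N) N M where
  x := x
  T := T
  inj := h.inj
  Te := hT.e
  Tx v hv i j hi hj hij := hT.diff v hv _ (mem_rX h i) _ (mem_rX h j) (fun e => hij (h.inj i j hi hj e))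
  ε v := ((rloc hd (P.pl v) hF hG hres h).ε : ℝ)
  ε_nonneg v _ := Nat.cast_nonneg _
  disc v _ hv := by
    have hv' : 0 < (rloc hd (P.pl v) hF hG hres h).ε := by exact_mod_cast hv
    change (1 : ℝ) ≤ _
    exact_mod_cast hv'
  β v i := -ratH (P.pl v) d F G (x i) + (P.pl v).o (resultant F G d d) / (d * (d - 1)) / 2
  sumβ i _ := by
    rw [sum_add_distrib, ← sum_div, ← sum_div, sum_neg_distrib,
      sum_ratH P hd (fun z hz => (rX_spec h z hz).2) (fun z hz => (rX_spec h z hz).1) T
        (fun v hv y hy => hT.G0 v hv y hy) (mem_rX h i)]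
    have h1 := P.sum_eq_zero T _ hres hT.res
    have h2 : ∑ v ∈ T, ((P.pl v).o (resultant F G d d) : ℝ) = 0 := by exact_mod_cast h1
    rw [h2]
    simp
  lower v _ i j hi hj hij := by
    have hne : x i ≠ x j := fun e => hij (h.inj i j hi hj e)
    have h1 := (abs_le.mp ((rloc hd (P.pl v) hF hG hres h).close _ (mem_rX h i) _ (mem_rX h j) hne)).1
    have h2 : (0 : ℝ) ≤ gp (P.pl v) (rloc hd (P.pl v) hF hG hres h).a
      (rloc hd (P.pl v) hF hG hres h).r (x i) (x j) := by exact_mod_cast gp_nonneg' hne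
    unfold gg at h1
    change -(2 * _) ≤ _
    linarith
  lb v _ s hs hcard := by
    change N₀ d < s.card at hcard
    have hinj : Set.InjOn x (s : Set ℕ) := fun i hi j hj e => h.inj i j (hs i hi) (hs j hj) e
    have hsX : s.image x ⊆ rX h := by
      intro y hy
      obtain ⟨i, _, rfl⟩ := mem_image.mp hy
      exact mem_rX h i
    obtain ⟨y, hy, z, hz, hyz, hw⟩ := (rloc hd (P.pl v) hF hG hres h).lb (s.image x) hsX (by
      rw [card_image_of_injOn hinj]; exact hcard.le)
    obtain ⟨i, hi, rfl⟩ := mem_image.mp hy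
    obtain ⟨j, hj, rfl⟩ := mem_image.mp hz
    refine ⟨i, hi, j, hj, fun e => hyz (by rw [e]), ?_⟩
    unfold gg at hw
    have h1 : min (c₀ d) 1 * ((rloc hd (P.pl v) hF hG hres h).ε : ℝ) ≤
      c₀ d * (rloc hd (P.pl v) hF hG hres h).ε :=
      mul_le_mul_of_nonneg_right (min_le_left _ _) (Nat.cast_nonneg _)
    change min (c₀ d) 1 * _ ≤ _
    linarith
  Vx v := PV (P.pl v)
  Dr _ := Set K
  S v := ratTree (P.pl v) (fun e => h.ne 0 (by rw [e, eval_zero]))
    (sub_ne_zero_of_coprime hd hcop hF hG htop) hF hG x h.ne h.step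
  Lv v := ratLevels (P.pl v) (fun e => h.ne 0 (by rw [e, eval_zero]))
    (sub_ne_zero_of_coprime hd hcop hF hG htop) hF hG x h.ne h.step
    (rloc hd (P.pl v) hF hG hres h).a (rloc hd (P.pl v) hF hG hres h).r
    ((ratConst d hd).hdepth M)
  star v _ ζ s hs hdir := by
    apply star_of_dirs ζ
    intro y hy z hz hyz
    obtain ⟨i, hi, rfl⟩ := mem_image.mp hy
    obtain ⟨j, hj, rfl⟩ := mem_image.mp hz
    exact hdir i hi j hj fun e => hyz (by rw [e])
  deep v _ hεM i j hi hj hij hdir := by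
    have hne : x i ≠ x j := fun e => hij (h.inj i j hi hj e)
    have h1 := gp_of_GP hne (ratLevels_deep _ _ _ _ _ _ _ _ _ hdir)
    have h2 := (abs_le.mp ((rloc hd (P.pl v) hF hG hres h).close _ (mem_rX h i) _ (mem_rX h j) hne)).1
    have h3 : (((ratConst d hd).depth M : ℕ) : ℝ) ≤ gp (P.pl v) (rloc hd (P.pl v) hF hG hres h).a
      (rloc hd (P.pl v) hF hG hres h).r (x i) (x j) := by exact_mod_cast h1
    have h4 : ((ratConst d hd).depth M : ℕ) = ⌈4 * M⌉₊ + 6 := rfl
    rw [h4] at h3
    push_cast at h3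
    have h5 : 4 * M ≤ ⌈4 * M⌉₊ := Nat.le_ceil _
    unfold gg at h2
    change 2 * M + 5 ≤ _
    linarith
  good v _ hε s hs hst := by
    by_contra hcon
    push Not at hcon
    apply hst
    have hε0 : (rloc hd (P.pl v) hF hG hres h).ε = 0 := by exact_mod_cast hε
    apply star_of_dirs (PV.mk (P.pl v) (rloc hd (P.pl v) hF hG hres h).a
      (rloc hd (P.pl v) hF hG hres h).r)
    intro y hy z hz hyz hdir
    obtain ⟨i, hi, rfl⟩ := mem_image.mp hy
    obtain ⟨j, hj, rfl⟩ := mem_image.mp hz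
    have key : ∀ i ∈ s, ∀ j ∈ s, i < j → x i ≠ x j →
        ¬ 1 ≤ gp (P.pl v) (rloc hd (P.pl v) hF hG hres h).a
      (rloc hd (P.pl v) hF hG hres h).r (x i) (x j) := by
      intro i hi j hj hij hne h1
      have h2 := hcon i hi j hj hij
      have h3 := (abs_le.mp ((rloc hd (P.pl v) hF hG hres h).close _ (mem_rX h i) _ (mem_rX h j) hne)).1
      have h4 : (1 : ℝ) ≤ gp (P.pl v) (rloc hd (P.pl v) hF hG hres h).a
        (rloc hd (P.pl v) hF hG hres h).r (x i) (x j) := by exact_mod_cast h1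
      rw [hε0] at h3
      unfold gg at h3
      change _ < (1 : ℝ) at h2
      push_cast at h3
      linarith
    have hgp := (dir_eq_iff_gp hyz).mp hdir
    have hij : i ≠ j := fun e => hyz (by rw [e])
    rcases lt_or_gt_of_ne hij with hlt | hlt
    · exact key i hi j hj hlt hyz (by unfold gp; omega)
    · refine key j hj i hi hlt hyz.symm ?_
      unfold gp
      rw [(P.pl v).o_sub_comm]
      omega
  persist v _ hε i j hij hj hc := by
    have hε0 : (rloc hd (P.pl v) hF hG hres h).ε = 0 := by exact_mod_cast hε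
    have hne : x i ≠ x j := fun e => by
      have := h.inj i j (by omega) (by omega) e; omega
    have hne' : x (i + 1) ≠ x (j + 1) := fun e => by
      have := h.inj (i + 1) (j + 1) (by omega) (by omega) e; omega
    have h1 := (abs_le.mp ((rloc hd (P.pl v) hF hG hres h).close _ (mem_rX h i) _ (mem_rX h j) hne)).2
    have h2 := (abs_le.mp ((rloc hd (P.pl v) hF hG hres h).close _ (mem_rX h (i + 1)) _
      (mem_rX h (j + 1)) hne')).1
    have h3 := (rloc hd (P.pl v) hF hG hres h).good hε0 _ (mem_rX h i) _ (mem_rX h j) (by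
      rw [← h.step, ← h.step]; exact hne')
    rw [← h.step, ← h.step] at h3
    have h4 : (gp (P.pl v) (rloc hd (P.pl v) hF hG hres h).a
      (rloc hd (P.pl v) hF hG hres h).r (x i) (x j) : ℝ) ≤ gp (P.pl v)
      (rloc hd (P.pl v) hF hG hres h).a
      (rloc hd (P.pl v) hF hG hres h).r (x (i + 1)) (x (j + 1)) := by exact_mod_cast h3
    rw [hε0] at h1 h2
    unfold gg at h1 h2
    push_cast at h1 h2
    change (1 : ℝ) ≤ _ at hc ⊢
    linarith
  trans v _ hε i j l hij hjl hl hc1 hc2 := by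
    have hε0 : (rloc hd (P.pl v) hF hG hres h).ε = 0 := by exact_mod_cast hε
    have hne1 : x i ≠ x j := fun e => by
      have := h.inj i j (by omega) (by omega) e; omega
    have hne2 : x j ≠ x l := fun e => by
      have := h.inj j l (by omega) (by omega) e; omega
    have hne3 : x i ≠ x l := fun e => by
      have := h.inj i l (by omega) (by omega) e; omega
    have h1 := (abs_le.mp ((rloc hd (P.pl v) hF hG hres h).close _ (mem_rX h i) _ (mem_rX h j) hne1)).2
    have h2 := (abs_le.mp ((rloc hd (P.pl v) hF hG hres h).close _ (mem_rX h j) _ (mem_rX h l) hne2)).2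
    have h3 := (abs_le.mp ((rloc hd (P.pl v) hF hG hres h).close _ (mem_rX h i) _ (mem_rX h l) hne3)).1
    rw [hε0] at h1 h2 h3
    unfold gg at h1 h2 h3
    push_cast at h1 h2 h3
    change (1 : ℝ) ≤ _ at hc1 hc2 ⊢
    have e1 : 1 ≤ gp (P.pl v) (rloc hd (P.pl v) hF hG hres h).a
      (rloc hd (P.pl v) hF hG hres h).r (x i) (x j) := by
      have : (1 : ℝ) ≤ gp (P.pl v) (rloc hd (P.pl v) hF hG hres h).a
        (rloc hd (P.pl v) hF hG hres h).r (x i) (x j) := by linarith
      exact_mod_cast this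
    have e2 : 1 ≤ gp (P.pl v) (rloc hd (P.pl v) hF hG hres h).a
      (rloc hd (P.pl v) hF hG hres h).r (x j) (x l) := by
      have : (1 : ℝ) ≤ gp (P.pl v) (rloc hd (P.pl v) hF hG hres h).a
        (rloc hd (P.pl v) hF hG hres h).r (x j) (x l) := by linarith
      exact_mod_cast this
    have e3 := gp_trans hne1 hne2 hne3 e1 e2
    have e4 : (1 : ℝ) ≤ gp (P.pl v) (rloc hd (P.pl v) hF hG hres h).a
        (rloc hd (P.pl v) hF hG hres h).r (x i) (x l) := by exact_mod_cast e3
    linarith
  ode r Λ hΛ hΛN _ _ := by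
    exfalso
    change 1 ≤ Λ.card at hΛ
    obtain ⟨j, hj⟩ := card_pos.mp hΛ
    have := hΛN j hj
    change j + (N + 1) ≤ N at this
    omega

theorem exists_dirV (h : RatOrbit F G x N) (hd : 2 ≤ d) (hcop : IsCoprime F G)
    (hF : F.natDegree ≤ d) (hG : G.natDegree ≤ d) (htop : F.coeff d ≠ 0 ∨ G.coeff d ≠ 0)
    (hres : resultant F G d d ≠ 0) (M : ℝ) (T : Finset V) (hT : RAdm P F G d (rX h) T)
    {v : V} {i J N' : ℕ} (hJ : 1 ≤ J) (hle : i + N' * J ≤ N)
    (hst : (∃ ζ : (ratInstV h hd hcop hF hG htop hres M T hT).Vx v,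
        ∀ l l', l < l' → l' ≤ N' →
        ((ratInstV h hd hcop hF hG htop hres M T hT).S v).dir ζ (i + l * J) ≠
        ((ratInstV h hd hcop hF hG htop hres M T hT).S v).dir ζ (i + l' * J)) ∨
      ((ratInstV h hd hcop hF hG htop hres M T hT).ε v = 0 ∧
        ∀ l l', l < l' → l' ≤ N' →
        (ratInstV h hd hcop hF hG htop hres M T hT).g v (i + l * J) (i + l' * J) <
          (ratConst d hd).c1)) :
    ∃ ζ : PV (P.pl v), ∀ l l', l ≤ N' → l' ≤ N' → l ≠ l' →
      ζ.dir (x (i + l * J)) ≠ ζ.dir (x (i + l' * J)) := by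
  rcases hst with ⟨ζ, hζ⟩ | ⟨hε, hg⟩
  · refine ⟨ζ, ?_⟩
    intro l l' hl hl' hne
    rcases lt_or_gt_of_ne hne with hlt | hlt
    · exact hζ l l' hlt hl'
    · exact (hζ l' l hlt hl).symm
  · have hε0 : (rloc hd (P.pl v) hF hG hres h).ε = 0 := by
      change ((rloc hd (P.pl v) hF hG hres h).ε : ℝ) = 0 at hε
      exact_mod_cast hε
    have hidx : ∀ l, l ≤ N' → i + l * J ≤ N := fun l hl =>
      le_trans (by gcongr) hle
    have hinj : ∀ l l', l ≤ N' → l' ≤ N' → l ≠ l' → x (i + l * J) ≠ x (i + l' * J) := by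
      intro l l' hl hl' hne e
      have := h.inj _ _ (hidx l hl) (hidx l' hl') e
      have h2 : l * J = l' * J := by omega
      exact hne (Nat.eq_of_mul_eq_mul_right (by omega) h2)
    refine ⟨PV.mk (P.pl v) (rloc hd (P.pl v) hF hG hres h).a (rloc hd (P.pl v) hF hG hres h).r, ?_⟩
    have key : ∀ l l', l < l' → l' ≤ N' → ¬ 1 ≤ gp (P.pl v) (rloc hd (P.pl v) hF hG hres h).a
        (rloc hd (P.pl v) hF hG hres h).r (x (i + l * J)) (x (i + l' * J)) := by
      intro l l' hl hl' h1
      have h2 := hg l l' hl hl'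
      have hne := hinj l l' (by omega) hl' (by omega)
      have h3 := (abs_le.mp ((rloc hd (P.pl v) hF hG hres h).close _ (mem_rX h (i + l * J)) _
        (mem_rX h (i + l' * J)) hne)).1
      have h4 : (1 : ℝ) ≤ gp (P.pl v) (rloc hd (P.pl v) hF hG hres h).a
        (rloc hd (P.pl v) hF hG hres h).r (x (i + l * J)) (x (i + l' * J)) := by exact_mod_cast h1
      rw [hε0] at h3
      unfold gg at h3
      have h5 : ((P.pl v).o (x (i + l * J) - x (i + l' * J)) : ℝ) +
          (-ratH (P.pl v) d F G (x (i + l * J)) +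
            (P.pl v).o (resultant F G d d) / (d * (d - 1)) / 2) +
          (-ratH (P.pl v) d F G (x (i + l' * J)) +
            (P.pl v).o (resultant F G d d) / (d * (d - 1)) / 2) < 1 := h2
      push_cast at h3
      linarith
    intro l l' hl hl' hne hdir
    have hgp := (dir_eq_iff_gp (hinj l l' hl hl' hne)).mp hdir
    rcases lt_or_gt_of_ne hne with hlt | hlt
    · exact key l l' hlt hl' (by unfold gp; omega)
    · refine key l' l hlt hl ?_
      unfold gp
      rw [(P.pl v).o_sub_comm]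
      omega


end Pool.Agent.Helper33.PT
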