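import Pool.Agent.Helper33.PT.Core2
import Pool.Agent.Helper93.RatIso

/-!
# Plan T: the Frobenius levels
-/

set_option autoImplicit false

open Finset Polynomial

namespace Pool.Agent.Helper33.PT

open Pool.Agent.Helper33.UB Pool.Agent.Helper51.RatTree Pool.Agent.Helper55.RD
  Pool.Agent.Helper93.RatODE Pool.Agent.Helper45.FR Pool.Agent.Helper33.PS

section basic

variable {K : Type} [Field K]

lemma orbit_shift {F G : K[X]} {x : ℕ → K} {N : ℕ} (h : RatOrbit F G x N) (a N' : ℕ) (ha : a + N' ≤ N) :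
    RatOrbit F G (fun j => x (a + j)) N' where
  ne i := h.ne _
  step i := h.step _
  inj i j hi hj e := by
    have := h.inj (a + i) (a + j) (by omega) (by omega) e
    omega
  fin := h.fin.subset (by
    rintro _ ⟨j, rfl⟩
    exact ⟨a + j, rfl⟩)

lemma orbit_mono {F G : K[X]} {x : ℕ → K} {N N' : ℕ} (h : RatOrbit F G x N) (hN : N' ≤ N) :
    RatOrbit F G x N' :=
  ⟨h.ne, h.step, fun i j hi hj hij => h.inj i j (hi.trans hN) (hj.trans hN) hij, h.fin⟩

lemma riccati_zero {α β γ a b c : K} (hab : a ≠ b) (hac : a ≠ c) (hbc : b ≠ c)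
    (ha : α * a ^ 2 + β * a + γ = 0) (hb : α * b ^ 2 + β * b + γ = 0)
    (hc : α * c ^ 2 + β * c + γ = 0) : α = 0 ∧ β = 0 ∧ γ = 0 := by
  have h1 : (a - b) * (α * (a + b) + β) = 0 := by linear_combination ha - hb
  have h2 : (a - c) * (α * (a + c) + β) = 0 := by linear_combination ha - hc
  have h1' := (mul_eq_zero.mp h1).resolve_left (sub_ne_zero.mpr hab)
  have h2' := (mul_eq_zero.mp h2).resolve_left (sub_ne_zero.mpr hac)
  have h3 : α * (b - c) = 0 := by linear_combination h1' - h2'
  have hα := (mul_eq_zero.mp h3).resolve_right (sub_ne_zero.mpr hbc)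
  subst hα
  have hβ : β = 0 := by linear_combination h1'
  subst hβ
  exact ⟨rfl, rfl, by linear_combination ha⟩

/-- derivations vanish on quotients of constants -/
lemma D_cr_zero {D : K → K} (hadd : ∀ x y, D (x + y) = D x + D y)
    (hmul : ∀ x y, D (x * y) = x * D y + y * D x) {a b c y : K} (ha : D a = 0) (hb : D b = 0)
    (hc : D c = 0) (hy : D y = 0) : D (Pool.Agent.Helper33.PS.cr a b c y) = 0 := by
  have h0 : D 0 = 0 := by simpa using hadd 0 0
  have h1 : D 1 = 0 := by
    have := hmul 1 1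
    simp only [mul_one, one_mul] at this
    simpa using this
  have hneg : ∀ z, D z = 0 → D (-z) = 0 := by
    intro z hz
    have h := hadd z (-z)
    rw [add_neg_cancel, h0, hz, zero_add] at h
    exact h.symm
  have hsub : ∀ z w, D z = 0 → D w = 0 → D (z - w) = 0 := by
    intro z w hz hw
    rw [sub_eq_add_neg, hadd, hz, hneg w hw, add_zero]
  have hmul0 : ∀ z w, D z = 0 → D w = 0 → D (z * w) = 0 := by
    intro z w hz hw
    rw [hmul, hz, hw, mul_zero, mul_zero, add_zero]
  have hdiv : ∀ z w, D z = 0 → D w = 0 → D (z / w) = 0 := by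
    intro z w hz hw
    by_cases hw0 : w = 0
    · rw [hw0, div_zero, h0]
    · have h := hmul w (z / w)
      rw [mul_div_cancel₀ z hw0, hz, hw, mul_zero, add_zero] at h
      exact (mul_eq_zero.mp h.symm).resolve_left hw0
  unfold Pool.Agent.Helper33.PS.cr
  exact hdiv _ _ (hmul0 _ _ (hsub _ _ hy ha) (hsub _ _ hc hb))
    (hmul0 _ _ (hsub _ _ hy hb) (hsub _ _ hc ha))

lemma D_const {D : K → K} (p : ℕ) [Fact p.Prime] [CharP K p]
    (hadd : ∀ x y, D (x + y) = D x + D y) (hmul : ∀ x y, D (x * y) = x * D y + y * D x) (z : K) :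
    D (z ^ p) = 0 := by
  have h0 : D 0 = 0 := by simpa using hadd 0 0
  have h1 : D 1 = 0 := by
    have := hmul 1 1
    simp only [mul_one, one_mul] at this
    simpa using this
  have hpow : ∀ n : ℕ, D (z ^ (n + 1)) = (n + 1 : ℕ) * (z ^ n * D z) := by
    intro n
    induction n with
    | zero => simp
    | succ n ih =>
      rw [pow_succ, hmul, ih]
      push_cast
      ring
  obtain ⟨m, hm⟩ : ∃ m, p = m + 1 := ⟨p - 1, by have := (Fact.out : p.Prime).pos; omega⟩
  have h2 := hpow m
  rw [← hm] at h2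
  rw [h2, CharP.cast_eq_zero, zero_mul]

end basic

section gg

variable {k K V : Type} [Field k] [Field K] [Algebra k K] {P : PSys k K V}
  {F G : K[X]} {x : ℕ → K} {N d : ℕ} [DecidableEq K]

lemma g_eq_gg (h : RatOrbit F G x N) (hd : 2 ≤ d) (hcop : IsCoprime F G)
    (hF : F.natDegree ≤ d) (hG : G.natDegree ≤ d) (htop : F.coeff d ≠ 0 ∨ G.coeff d ≠ 0)
    (hres : resultant F G d d ≠ 0) (M : ℝ) (T : Finset V) (hT : RAdm P F G d (rX h) T) (v : V) (i j : ℕ) :
    (ratInstV h hd hcop hF hG htop hres M T hT).g v i j =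
      gg (P.pl v) d F G (ratH (P.pl v) d F G) (x i) (x j) := by
  unfold gg
  change ((P.pl v).o (x i - x j) : ℝ) + (-ratH (P.pl v) d F G (x i) +
    (P.pl v).o (resultant F G d d) / (d * (d - 1)) / 2) + (-ratH (P.pl v) d F G (x j) +
    (P.pl v).o (resultant F G d d) / (d * (d - 1)) / 2) = _
  ring

lemma h_eq_tb (h : RatOrbit F G x N) (hd : 2 ≤ d) (hFG : IsRat F G d)
    (hres : resultant F G d d ≠ 0) (M : ℝ) (T : Finset V) (hT : RAdm P F G d (rX h) T) :
    (ratInstV h hd hFG.cop hFG.dA hFG.dB hFG.top hres M T hT).h = tb P hd hFG hres h T := rfl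

/-- the total badness does not depend on the length -/
lemma tb_mono (hd : 2 ≤ d) (hFG : IsRat F G d) (hres : resultant F G d d ≠ 0) {N' : ℕ}
    (h : RatOrbit F G x N) (hN : N' ≤ N) (T : Finset V) :
    tb P hd hFG hres (orbit_mono h hN) T = tb P hd hFG hres h T := rfl

end gg

end Pool.Agent.Helper33.PT
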