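import Pool.Agent.Helper33.PT.Lev

/-!
# Plan T: the Frobenius levels (2)
-/

set_option autoImplicit false

open Finset Polynomial

namespace Pool.Agent.Helper33.PT

open Pool.Agent.Helper33.UB Pool.Agent.Helper51.RatTree Pool.Agent.Helper55.RD
  Pool.Agent.Helper93.RatODE Pool.Agent.Helper45.FR Pool.Agent.Helper33.PS

/-- **The levels.** -/
theorem exists_level {k K V : Type} [Field k] [IsAlgClosed k] [Field K] [Algebra k K] (p : ℕ)
    [Fact p.Prime] [CharP k p] [CharP K p] (P : PSys k K V)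
    (hker : ∀ y, P.D y = 0 → ∃ z : K, z ^ p = y) {d : ℕ} (hd : 2 ≤ d) {F G : K[X]}
    (hFG : IsRat F G d) {x : ℕ → K} {N : ℕ} (hx : RatOrbit F G x N)
    (hnorm : ∃ i, F.coeff i = 1 ∨ G.coeff i = 1) (N₁ S : ℕ) (hN : S * N₁ + 2 * d + 2 ≤ N)
    {α β γ : ℕ} (hαβ : α ≠ β) (hαγ : α ≠ γ) (hβγ : β ≠ γ) (hα : S * N₁ ≤ α) (hβ : S * N₁ ≤ β)
    (hγ : S * N₁ ≤ γ) (hα' : α ≤ N) (hβ' : β ≤ N) (hγ' : γ ≤ N)
    (cα : ∃ c : k, algebraMap k K c = x α) (cβ : ∃ c : k, algebraMap k K c = x β)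
    (cγ : ∃ c : k, algebraMap k K c = x γ)
    (hstep : ∀ (F' G' : K[X]) (z : ℕ → K) (N' : ℕ), IsRat F' G' d → RatOrbit F' G' z N' → N₁ ≤ N' →
      (ConstConj k F' G' d → ConstConj k F G d) →
      ∃ j₀ ≤ N₁, ∃ a b c : K, ∀ j, j₀ ≤ j → P.D (z j) = a * z j ^ 2 + b * z j + c) :
    ∀ s ≤ S, ∃ (F' G' : K[X]) (z : ℕ → K) (A : ℕ), A ≤ s * N₁ ∧ IsRat F' G' d ∧
      RatOrbit F' G' z (N - s * N₁) ∧ (∃ i, F'.coeff i = 1 ∨ G'.coeff i = 1) ∧
      (∀ j, z j ^ (p ^ s) = x (A + j)) ∧ (ConstConj k F' G' d → ConstConj k F G d) ∧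
      (∀ (v : DV K) (i j : ℕ), z i ≠ z j → gg v d F G (ratH v d F G) (x (A + i)) (x (A + j)) =
        (p : ℝ) ^ s * gg v d F' G' (ratH v d F' G') (z i) (z j)) := by
  classical
  intro s
  induction s with
  | zero =>
    intro _
    refine ⟨F, G, x, 0, by simp, hFG, by simpa using hx, hnorm, fun j => by simp, id, ?_⟩
    intro v i j _
    simp
  | succ s ih =>
    intro hs
    obtain ⟨F', G', z, A, hA, hFG', hz, hnorm', hzx, hconj, hgg⟩ := ih (by omega)
    have hsN : (s + 1) * N₁ = s * N₁ + N₁ := Nat.succ_mul s N₁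
    have hSN : (s + 1) * N₁ ≤ S * N₁ := Nat.mul_le_mul_right _ hs
    obtain ⟨j₀, hj₀, a, b, c, hric⟩ := hstep F' G' z (N - s * N₁) hFG' hz (by omega) hconj
    -- the constants
    have hinjp : ∀ m : ℕ, ∀ u w : K, u ^ (p ^ m) = w ^ (p ^ m) → u = w := by
      intro m u w huw
      exact iterateFrobenius_inj K p m (by rw [iterateFrobenius_def, iterateFrobenius_def]; exact huw)
    have hinj1 : ∀ u w : K, u ^ p = w ^ p → u = w := by
      intro u w huw
      exact hinjp 1 u w (by simpa using huw)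
    have hconst : ∀ q, S * N₁ ≤ q → (∃ e : k, algebraMap k K e = x q) → P.D (z (q - A)) = 0 := by
      rintro q hq ⟨e, he⟩
      obtain ⟨e', he'⟩ := IsAlgClosed.exists_pow_nat_eq e (n := p ^ s * p)
        (Nat.mul_pos (pow_pos (Fact.out : p.Prime).pos s) (Fact.out : p.Prime).pos)
      have h1 : z (q - A) = (algebraMap k K e') ^ p := by
        apply hinjp s
        rw [hzx, show A + (q - A) = q by omega, ← he, ← he', ← pow_mul, map_pow, mul_comm p]
      rw [h1]
      exact D_const p P.D_add P.D_mul _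
    have hne : ∀ q q', S * N₁ ≤ q → S * N₁ ≤ q' → q ≤ N → q' ≤ N → q ≠ q' → z (q - A) ≠ z (q' - A) := by
      intro q q' hq hq' hqN hqN' hqq e
      apply hqq
      apply hx.inj q q' hqN hqN'
      have h1 := hzx (q - A)
      have h2 := hzx (q' - A)
      rw [show A + (q - A) = q by omega] at h1
      rw [show A + (q' - A) = q' by omega] at h2
      rw [← h1, ← h2, e]
    have hr : ∀ q, S * N₁ ≤ q → (∃ e : k, algebraMap k K e = x q) →
        a * z (q - A) ^ 2 + b * z (q - A) + c = 0 := by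
      intro q hq hc
      rw [← hric (q - A) (by omega)]
      exact hconst q hq hc
    obtain ⟨ha0, hb0, hc0⟩ := riccati_zero (hne α β hα hβ hα' hβ' hαβ) (hne α γ hα hγ hα' hγ' hαγ)
      (hne β γ hβ hγ hβ' hγ' hβγ) (hr α hα cα) (hr β hβ cβ) (hr γ hγ cγ)
    have hD : ∀ j, j₀ ≤ j → P.D (z j) = 0 := by
      intro j hj
      rw [hric j hj, ha0, hb0, hc0]
      ring
    -- the coefficients
    have hcoef := coeff_const_of_points P.D_add P.D_mul hFG' hnorm' ((Icc j₀ (j₀ + 2 * d)).image z) (by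
      rw [card_image_of_injOn, Nat.card_Icc]
      · omega
      · intro i hi j hj e
        rw [mem_coe, mem_Icc] at hi hj
        exact hz.inj i j (by omega) (by omega) e) (by
      intro y hy
      obtain ⟨j, hj, rfl⟩ := mem_image.mp hy
      rw [mem_Icc] at hj
      refine ⟨hD j hj.1, hz.ne j, ?_⟩
      rw [← hz.step j]
      exact hD (j + 1) (by omega))
    obtain ⟨F₁, G₁, z₁, g1, g2, g3, g4, g5, g6, g7⟩ := level_step (k := k) p (by omega : 1 ≤ d) hFG' hz hnorm'
      (fun i => hker _ (hcoef i).1) (fun i => hker _ (hcoef i).2) j₀ (N - (s + 1) * N₁) (by omega)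
      (fun j => hker _ (hD (j₀ + j) (by omega)))
    refine ⟨F₁, G₁, z₁, A + j₀, by omega, g1, g2, g3, ?_, fun h => hconj (g7 h), ?_⟩
    · intro j
      rw [pow_succ, mul_comm, pow_mul, g4, hzx, add_assoc]
    · intro v i j hij
      have h1 : z (j₀ + i) ≠ z (j₀ + j) := by
        intro e
        apply hij
        apply hinj1
        rw [g4, g4, e]
      rw [add_assoc, add_assoc, hgg v _ _ h1, gg_scale p v hd hFG' g5 g6 hz g2 g4 i j hij, pow_succ]
      ring

end Pool.Agent.Helper33.PT
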