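import Pool.Agent.Helper33.UB.Sel4

/-!
# Plan T: the inequality on a consecutive window
-/

set_option autoImplicit false

open Finset Polynomial

namespace Pool.Agent.Helper33.PT

open Pool.Agent.Helper33.UB TreeDyn

variable {k K V : Type} [Field k] [Field K] [Algebra k K] [DecidableEq K] {P : PSys k K V}
  {c : GConst} {N : ℕ} {M : ℝ} (I : GInst P c N M)

/-- **The inequality on a consecutive window.** -/
theorem claimC (hM : 0 < M) {n Nst : ℕ} (hN : n + Nst ≤ N) (hn : 1 ≤ n) {R : ℕ} {ϑ : ℝ} (hϑ : 0 < ϑ)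
    (hRϑ : 5 / ϑ ≤ R + 1) (hR : c.N0 * (c.c0 + c.C1) ≤ (R + 1) * c.c0) (Bad : V → Finset ℕ)
    {i W w a : ℕ} (hia : i ≤ a) (haW : a + w ≤ i + W) (hiW : i + W < n)
    (hdvd : ∀ δ, 1 ≤ δ → δ ≤ w → δ ∣ Nst) (hNst : 1 ≤ Nst) (Ss : ℕ → Finset V)
    (hSs : ∀ s < W, ∀ v ∈ I.rel n Nst, v ∉ Ss s →
      i + s ∈ Bad v ∨ i + s ∈ (I.Lv v).heavy n (ϑ * n))
    (Y : Finset ℕ) (hY : Y ⊆ Ico a (a + w)) (hcard : Y.card = 2 * (R + 1))
    (hdet : (hankel P.D (Y.image I.x) R).det ≠ 0) (tF tT : ℝ)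
    (hF : ∀ B ⊆ I.rel n Nst, (∀ v ∈ B, (∃ s, a ≤ i + s ∧ i + s < a + w ∧ v ∈ Ss s) ∧
      ∀ s, i + s < a → v ∉ Ss s) → (B.card : ℝ) ≤ tF)
    (hT : ∀ j ∈ Y, ∀ B ⊆ I.rel n Nst, (∀ v ∈ B, j ∈ Bad v) → (B.card : ℝ) ≤ tT)
    (Sb : Finset V) (hSb : Sb ⊆ I.T)
    (hstar : ∀ v ∈ I.rel n Nst, v ∉ Sb → ∀ s, i + s < a → v ∈ Ss s → Star (P.pl v) (Y.image I.x)) :
    ∃ Hg Loss : Finset V, Hg ⊆ I.T ∧ Loss ⊆ I.T ∧ Sb ⊆ Loss ∧
      (Loss.card : ℝ) ≤ I.h / M + tF + 10 * tT + Sb.card ∧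
      c.c0 / 2 * I.h + M / 10 * Hg.card ≤ 2 * (Loss.card + P.E) ∧
      ∀ v ∈ I.T, v ∉ Hg → v ∉ Loss →
        (∃ s, i + s < a ∧ v ∈ Ss s) ∨ (v ∉ I.rel n Nst ∧ I.ε v = 0) := by
  classical
  set Θ : ℝ := ϑ * n with hΘ
  have hnr : (1 : ℝ) ≤ n := by exact_mod_cast hn
  have hYn : ∀ j ∈ Y, a ≤ j ∧ j < a + w := fun j hj => mem_Ico.mp (hY hj)
  have hYN : ∀ j ∈ Y, j ≤ N := by
    intro j hj
    have := hYn j hj
    omega
  set kf : V → ℕ := fun v => (Y.filter fun j => j ∈ Bad v).card with hkf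
  set NS : V → Prop := fun v => ∀ s, i + s < a + w → v ∉ Ss s with hNS
  set Hg : Finset V := (I.rel n Nst).filter fun v => NS v ∧ 5 * (kf v : ℝ) ≤ R + 1 with hHg
  set L1 : Finset V := I.T.filter fun v => M ≤ I.ε v with hL1
  set L2 : Finset V := (I.rel n Nst).filter fun v =>
    (∃ s, a ≤ i + s ∧ i + s < a + w ∧ v ∈ Ss s) ∧ ∀ s, i + s < a → v ∉ Ss s with hL2
  set L3 : Finset V := (I.rel n Nst).filter fun v => NS v ∧ ¬ (5 * (kf v : ℝ) ≤ R + 1) with hL3
  have hrelT : I.rel n Nst ⊆ I.T := by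
    unfold GInst.rel; exact filter_subset _ _
  have hLT : L1 ∪ (L2 ∪ (L3 ∪ Sb)) ⊆ I.T := union_subset (filter_subset _ _)
    (union_subset ((filter_subset _ _).trans hrelT) (union_subset ((filter_subset _ _).trans hrelT) hSb))
  have hHT : Hg ⊆ I.T := (filter_subset _ _).trans hrelT
  have hrelM : ∀ v ∈ I.rel n Nst, I.ε v < M := by
    intro v hv
    unfold GInst.rel at hv
    rcases (mem_filter.mp hv).2 with h | h
    · exact h.2
    · rw [h.1]; exact hM
  have hsep : ∀ v ∈ I.T, v ∉ Hg → v ∉ L1 ∪ (L2 ∪ (L3 ∪ Sb)) →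
      v ∉ Sb ∧ ((v ∈ I.rel n Nst ∧ ∃ s, i + s < a ∧ v ∈ Ss s) ∨ (v ∉ I.rel n Nst ∧ I.ε v = 0)) := by
    intro v hv hvH hvL
    rw [mem_union, not_or, mem_union, not_or, mem_union, not_or] at hvL
    obtain ⟨h1, h2, h3, h4⟩ := hvL
    refine ⟨h4, ?_⟩
    by_cases hvr : v ∈ I.rel n Nst
    · left
      refine ⟨hvr, ?_⟩
      by_contra hno
      push Not at hno
      by_cases hns : NS v
      · by_cases h5 : 5 * (kf v : ℝ) ≤ R + 1
        · exact hvH (mem_filter.mpr ⟨hvr, hns, h5⟩)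
        · exact h3 (mem_filter.mpr ⟨hvr, hns, h5⟩)
      · rw [hNS] at hns
        push Not at hns
        obtain ⟨s, hs1, hs2⟩ := hns
        refine h2 (mem_filter.mpr ⟨hvr, ⟨s, ?_, hs1, hs2⟩, hno⟩)
        by_contra hlt
        exact hno s (by omega) hs2
    · right
      refine ⟨hvr, ?_⟩
      rcases (I.ε_nonneg v hv).lt_or_eq with h | h
      · exfalso
        apply hvr
        unfold GInst.rel
        refine mem_filter.mpr ⟨hv, Or.inl ⟨h, ?_⟩⟩
        by_contra hM'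
        push Not at hM'
        exact h1 (mem_filter.mpr ⟨hv, hM'⟩)
      · exact h.symm
  have hlossb : ((L1 ∪ (L2 ∪ (L3 ∪ Sb))).card : ℝ) ≤ I.h / M + tF + 10 * tT + Sb.card := by
    have h1 := I.card_bad hM L1 (filter_subset _ _) (fun v hv => (mem_filter.mp hv).2)
    have h2 := hF L2 (filter_subset _ _) (fun v hv => (mem_filter.mp hv).2)
    have h3 : (L3.card : ℝ) ≤ 10 * tT := by
      have hRr : (0 : ℝ) ≤ R := Nat.cast_nonneg R
      have e1 : (L3.card : ℝ) * (R + 1) ≤ ∑ v ∈ L3, 5 * (kf v : ℝ) := by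
        rw [← nsmul_eq_mul, ← sum_const]
        apply sum_le_sum
        intro v hv
        have := (mem_filter.mp hv).2.2
        push Not at this
        exact this.le
      have e2 : ∑ v ∈ L3, (kf v : ℝ) = ∑ j ∈ Y, ((L3.filter fun v => j ∈ Bad v).card : ℝ) := by
        have : ∑ v ∈ L3, kf v = ∑ j ∈ Y, (L3.filter fun v => j ∈ Bad v).card := by
          simp only [hkf, card_filter]
          exact sum_comm
        exact_mod_cast this
      have e3 : ∑ j ∈ Y, ((L3.filter fun v => j ∈ Bad v).card : ℝ) ≤ ∑ j ∈ Y, tT := by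
        apply sum_le_sum
        intro j hj
        apply hT j hj _ ((filter_subset _ _).trans (filter_subset _ _))
        intro v hv
        exact (mem_filter.mp hv).2
      rw [sum_const, hcard, nsmul_eq_mul] at e3
      push_cast at e3
      rw [← mul_sum, e2] at e1
      have e4 : (L3.card : ℝ) * (R + 1) ≤ (10 * tT) * (R + 1) := by linarith
      exact le_of_mul_le_mul_right e4 (by linarith)
    have h4 : (((L1 ∪ (L2 ∪ (L3 ∪ Sb))).card : ℕ) : ℝ) ≤ L1.card + (L2.card + (L3.card + Sb.card)) := by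
      have h5 := (card_union_le L1 (L2 ∪ (L3 ∪ Sb)))
      have h6 := card_union_le L2 (L3 ∪ Sb)
      have h7 := card_union_le L3 Sb
      exact_mod_cast (by omega : (L1 ∪ (L2 ∪ (L3 ∪ Sb))).card ≤ L1.card + (L2.card + (L3.card + Sb.card)))
    linarith
  have hmain := I.main_ineq' hR hM.le Y hYN hcard hdet Hg (L1 ∪ (L2 ∪ (L3 ∪ Sb))) hHT ?_ ?_
  · refine ⟨Hg, L1 ∪ (L2 ∪ (L3 ∪ Sb)), hHT, hLT, ?_, hlossb, hmain, ?_⟩
    · intro v hv
      exact mem_union_right _ (mem_union_right _ (mem_union_right _ hv))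
    · intro v hv hvH hvL
      rcases (hsep v hv hvH hvL).2 with h | h
      · exact Or.inl h.2
      · exact Or.inr h
  · -- stars elsewhere
    intro v hv hvH hvL
    obtain ⟨hvSb, ⟨hvr, s, hs1, hs2⟩ | ⟨hvr, hε0⟩⟩ := hsep v hv hvH hvL
    · exact hstar v hvr hvSb s hs1 hs2
    · by_contra hst
      obtain ⟨b, hb, b', hb', hbb, hclose⟩ := I.good v hv hε0 Y hYN hst
      apply hvr
      unfold GInst.rel
      refine mem_filter.mpr ⟨hv, Or.inr ⟨hε0, ?_⟩⟩
      have hb1 := hYn b hb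
      have hb2 := hYn b' hb'
      set m := b' - b with hm
      have hm1 : 1 ≤ m := by omega
      have hbm : b' = b + m := by omega
      obtain ⟨q, hq⟩ := hdvd m hm1 (by omega)
      have hq1 : 1 ≤ q := by
        rcases Nat.eq_zero_or_pos q with h | h
        · rw [h, mul_zero] at hq; omega
        · exact h
      rw [hbm] at hclose
      have h1 := I.persist_mul hv hε0 hm1 hclose (n := n) (by omega) q hq1 (by
        rw [mul_comm q m, ← hq]; exact hN)
      rwa [mul_comm q m, ← hq] at h1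
  · -- heavy places
    intro v hv
    rw [hHg, mem_filter] at hv
    obtain ⟨hvr, hns, h5⟩ := hv
    refine ⟨hrelM v hvr, kf v + ⌊1 / ϑ⌋₊, ?_, ?_⟩
    · push_cast
      have h1 : (⌊1 / ϑ⌋₊ : ℝ) ≤ 1 / ϑ := Nat.floor_le (by positivity)
      have h2 : 5 / ϑ = 5 * (1 / ϑ) := by ring
      rw [h2] at hRϑ
      linarith
    · intro s' hs' hs'card
      set s2 := s'.filter fun j => j ∉ Bad v with hs2
      have h1 := card_filter_add_card_filter_not (s := s') (fun j => j ∈ Bad v)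
      have h2 : (s'.filter fun j => j ∈ Bad v).card ≤ kf v :=
        card_le_card (filter_subset_filter _ hs')
      have h3 : ⌊1 / ϑ⌋₊ < s2.card := by
        have : (s'.filter fun j => ¬ j ∈ Bad v).card = s2.card := rfl
        omega
      have h4 : 1 / ϑ < s2.card := (Nat.floor_lt (by positivity)).mp h3
      rw [div_lt_iff₀ hϑ] at h4
      obtain ⟨b, hb, b', hb', hab, hdir⟩ := exists_deep_pair (I.Lv v) (c.hdepth M) (n := n) (Θ := Θ) s2
        (fun j hj => by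
          have hj1 := (mem_filter.mp hj).1
          have hj2 := (mem_filter.mp hj).2
          have hj3 := hYn j (hs' hj1)
          have hj4 := hSs (j - i) (by omega) v hvr (hns (j - i) (by omega))
          rw [show i + (j - i) = j by omega] at hj4
          exact hj4.resolve_left hj2) (by
          rw [hΘ]
          nlinarith)
      have ha' := (mem_filter.mp hb).1
      have hb'' := (mem_filter.mp hb').1
      exact ⟨b, ha', b', hb'', hab, I.deep v (hrelT hvr) (hrelM v hvr) b b' (hYN b (hs' ha'))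
        (hYN b' (hs' hb'')) hab hdir⟩

end Pool.Agent.Helper33.PT
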