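import Pool.Agent.Helper33.PT.SelC1

/-!
# Plan T: selection of a consecutive window
-/

set_option autoImplicit false

open Finset Polynomial

namespace Pool.Agent.Helper33.PT

open Pool.Agent.Helper33.UB TreeDyn

/-- forget the differential equations -/
def noOde (c : GConst) (B : ℕ) : GConst := { c with mOf := fun _ => B + 1, nYOf := fun _ => 1 }

/-- choice of an index -/
lemma exists_start (b : ℕ → ℝ) (n W n1 : ℕ) (t : ℝ) (ht : 0 ≤ t) (hb : ∀ j, 0 ≤ b j)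
    (hs : ∑ j ∈ range n, b j ≤ 2 * t * n) (hn1 : n1 + W ≤ n) (hn : n ≤ 2 * n1) (h1 : 1 ≤ n1) :
    ∃ i < n1, ∑ s ∈ range W, b (i + s) ≤ 4 * t * W := by
  by_contra hcon
  push Not at hcon
  have h2 : ∑ i ∈ range n1, 4 * t * W < ∑ i ∈ range n1, ∑ s ∈ range W, b (i + s) :=
    sum_lt_sum_of_nonempty (by rw [nonempty_range_iff]; omega) fun i hi => hcon i (mem_range.mp hi)
  have h3 : ∑ i ∈ range n1, ∑ s ∈ range W, b (i + s) ≤ W * (2 * t * n) := by
    rw [sum_comm]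
    calc _ ≤ ∑ s ∈ range W, (2 * t * n) := by
          apply sum_le_sum
          intro s hs'
          rw [mem_range] at hs'
          refine le_trans ?_ hs
          have : ∑ i ∈ range n1, b (i + s) = ∑ j ∈ (range n1).image (fun i => i + s), b j := by
            rw [sum_image]
            intro x _ y _ hxy
            exact Nat.add_right_cancel hxy
          rw [this]
          apply sum_le_sum_of_subset_of_nonneg
          · intro j hj
            obtain ⟨i, hi, rfl⟩ := mem_image.mp hj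
            rw [mem_range] at hi ⊢
            omega
          · intro j _ _
            exact hb j
      _ = W * (2 * t * n) := by rw [sum_const, card_range, nsmul_eq_mul]
  rw [sum_const, card_range, nsmul_eq_mul] at h2
  have h4 : (n : ℝ) ≤ 2 * n1 := by exact_mod_cast hn
  have h5 : (W : ℝ) * (2 * t * n) ≤ n1 * (4 * t * W) := by
    have : 0 ≤ (W : ℝ) * t := by positivity
    nlinarith
  linarith

lemma sum_windows (b : ℕ → ℝ) (i w Q : ℕ) :
    ∑ q ∈ range Q, ∑ j ∈ Ico (i + q * w) (i + q * w + w), b j = ∑ s ∈ range (Q * w), b (i + s) := by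
  induction Q with
  | zero => simp
  | succ Q ih =>
    rw [sum_range_succ, ih, Nat.succ_mul, sum_range_add, sum_Ico_eq_sum_range]
    congr 1
    rw [Nat.add_sub_cancel_left]
    apply sum_congr rfl
    intro s _
    rw [add_assoc]

/-- choice of a window -/
lemma exists_window {V : Type} [DecidableEq V] (rel : Finset V) (b : ℕ → ℝ) (i w Q : ℕ) (t : ℝ) (ht : 0 < t)
    (hb : ∀ j, 0 ≤ b j) (hw : 1 ≤ w) (hQ : 1 ≤ Q)
    (hs : ∑ s ∈ range (Q * w), b (i + s) ≤ 4 * (t * rel.card) * (Q * w : ℕ)) (Ss : ℕ → Finset V) :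
    ∃ q < Q, (∑ j ∈ Ico (i + q * w) (i + q * w + w), b j ≤ 8 * w * (t * rel.card)) ∧
      ∀ B ⊆ rel, (∀ v ∈ B, (∃ s, i + q * w ≤ i + s ∧ i + s < i + q * w + w ∧ v ∈ Ss s) ∧
      ∀ s, i + s < i + q * w → v ∉ Ss s) → (B.card : ℝ) ≤ 2 * rel.card / Q := by
  classical
  set Fq : ℕ → Finset V := fun q => rel.filter fun v =>
    (∃ s, i + q * w ≤ i + s ∧ i + s < i + q * w + w ∧ v ∈ Ss s) ∧
      ∀ s, i + s < i + q * w → v ∉ Ss s with hFq
  have hdisj : ∀ q ∈ range Q, ∀ q' ∈ range Q, q ≠ q' → Disjoint (Fq q) (Fq q') := by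
    have key : ∀ q q', q < q' → Disjoint (Fq q) (Fq q') := by
      intro q q' hqq
      rw [disjoint_left]
      intro v hv hv'
      obtain ⟨s, h1, h2, h3⟩ := (mem_filter.mp hv).2.1
      refine (mem_filter.mp hv').2.2 s ?_ h3
      have : (q + 1) * w ≤ q' * w := Nat.mul_le_mul_right _ hqq
      rw [Nat.add_mul, one_mul] at this
      omega
    intro q _ q' _ hne
    rcases lt_or_gt_of_ne hne with h | h
    · exact key q q' h
    · exact (key q' q h).symm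
  have hF : ∑ q ∈ range Q, ((Fq q).card : ℝ) ≤ rel.card := by
    have h1 : ((range Q).biUnion Fq).card = ∑ q ∈ range Q, (Fq q).card := card_biUnion hdisj
    have h2 : ((range Q).biUnion Fq).card ≤ rel.card :=
      card_le_card (biUnion_subset.mpr fun q _ => filter_subset _ _)
    rw [h1] at h2
    exact_mod_cast h2
  have hB := sum_windows b i w Q
  have hQr : (1 : ℝ) ≤ Q := by exact_mod_cast hQ
  have hwr : (1 : ℝ) ≤ w := by exact_mod_cast hw
  have hρ : (0 : ℝ) ≤ rel.card := Nat.cast_nonneg _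
  obtain ⟨q, hq, hqle⟩ : ∃ q ∈ range Q, (∑ j ∈ Ico (i + q * w) (i + q * w + w), b j) +
      4 * t * w * Q * (Fq q).card ≤ 8 * w * (t * rel.card) := by
    by_contra hcon
    push Not at hcon
    have h1 : ∑ q ∈ range Q, 8 * w * (t * rel.card) < ∑ q ∈ range Q,
        ((∑ j ∈ Ico (i + q * w) (i + q * w + w), b j) + 4 * t * w * Q * (Fq q).card) :=
      sum_lt_sum_of_nonempty (by rw [nonempty_range_iff]; omega) hcon
    rw [sum_const, card_range, nsmul_eq_mul, sum_add_distrib, ← mul_sum, hB] at h1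
    have h2 : 4 * t * w * Q * ∑ q ∈ range Q, ((Fq q).card : ℝ) ≤ 4 * t * w * Q * rel.card := by
      apply mul_le_mul_of_nonneg_left hF
      positivity
    push_cast at hs
    nlinarith
  have hb0 : 0 ≤ ∑ j ∈ Ico (i + q * w) (i + q * w + w), b j := sum_nonneg fun j _ => hb j
  have hF0 : (0 : ℝ) ≤ (Fq q).card := Nat.cast_nonneg _
  refine ⟨q, mem_range.mp hq, ?_, ?_⟩
  · have : 0 ≤ 4 * t * w * Q * (Fq q).card := by positivity
    linarith
  · intro B hBs hB'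
    have h1 : (B.card : ℝ) ≤ (Fq q).card := by
      exact_mod_cast card_le_card (fun v hv => mem_filter.mpr ⟨hBs hv, hB' v hv⟩ : B ⊆ Fq q)
    refine h1.trans ?_
    rw [le_div_iff₀ (by linarith)]
    have h2 : 4 * t * w * (Q * (Fq q).card) ≤ 4 * t * w * (2 * rel.card) := by linarith
    have h3 := le_of_mul_le_mul_left h2 (by positivity)
    linarith

/-- the output of the selection -/
structure BlockC {k K V : Type} [Field k] [Field K] [Algebra k K]
    [DecidableEq K] {P : PSys k K V} {c : GConst} {N : ℕ} {M : ℝ} (I : GInst P c N M) (κ₀ : ℝ)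
    (wf : ℕ → ℕ) (Fn : ℕ → ℕ → ℕ) where
  n : ℕ
  Nst : ℕ
  hn : 1 ≤ n
  hNst : 1 ≤ Nst
  hN : n + Nst ≤ N
  R : ℕ
  W : ℕ
  J : ℕ
  N' : ℕ
  i : ℕ
  a : ℕ
  hR2 : c.N0 * (c.c0 + c.C1) ≤ (R + 1) * c.c0
  hR3 : 1 ≤ R
  hJ : 1 ≤ J
  hN' : Fn W J ≤ N'
  hia : i ≤ a
  haW : a + wf R ≤ i + W
  hi : i + W + N' * J < n
  Ss : ℕ → Finset V
  Ss_sub : ∀ s, Ss s ⊆ I.rel n Nst
  Ss_star : ∀ s < W, ∀ v ∈ Ss s, ∃ ζ : I.Vx v, ∀ l l', l < l' → l' ≤ N' →
    (I.S v).dir ζ (i + s + l * J) ≠ (I.S v).dir ζ (i + s + l' * J)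
  dvd : ∀ δ, 1 ≤ δ → δ ≤ W + N' * J → δ ∣ Nst
  Λ : Finset ℕ
  hΛ : Λ ⊆ Ico a (a + wf R)
  hΛc : 9 * wf R ≤ 10 * Λ.card
  am : ∀ Y ⊆ Λ, Y.card = 2 * (R + 1) → (hankel P.D (Y.image I.x) R).det ≠ 0 → ∀ Sb ⊆ I.T,
    (∀ v ∈ I.rel n Nst, v ∉ Sb → ∀ s, i + s < a → v ∈ Ss s → Star (P.pl v) (Y.image I.x)) →
    ∃ Hg Loss : Finset V, Hg ⊆ I.T ∧ Loss ⊆ I.T ∧ Sb ⊆ Loss ∧
      (Loss.card : ℝ) ≤ κ₀ * I.h + I.h / M + Sb.card ∧
      c.c0 / 2 * I.h + M / 10 * Hg.card ≤ 2 * (Loss.card + P.E) ∧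
      ∀ v ∈ I.T, v ∉ Hg → v ∉ Loss →
        (∃ s, i + s < a ∧ v ∈ Ss s) ∨ (v ∉ I.rel n Nst ∧ I.ε v = 0)

end Pool.Agent.Helper33.PT
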