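import Pool.Agent.Helper33.PT.SelC2

/-!
# Plan T: selection of a consecutive window (2)
-/

set_option autoImplicit false

open Finset Polynomial

namespace Pool.Agent.Helper33.PT

open Pool.Agent.Helper33.UB TreeDyn

/-- number of windows -/
noncomputable def Qf (c : GConst) (κ₀ : ℝ) : ℕ := ⌈4 * (1 / c.δ0 + c.C1 / c.c1) / κ₀⌉₊ + 1

/-- number of points -/
noncomputable def NfC (c : GConst) (κ₀ : ℝ) (wf : ℕ → ℕ) (Fn : ℕ → ℕ → ℕ) (ϑ : ℝ) (J : ℕ) : ℕ :=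
  Fn (Qf c κ₀ * wf (Rf c ϑ)) J + ⌈1 / ϑ⌉₊ + 1

lemma NfC_spec (c : GConst) (κ₀ : ℝ) (wf : ℕ → ℕ) (Fn : ℕ → ℕ → ℕ) {ϑ : ℝ} (J : ℕ) (hϑ : 0 < ϑ) :
    1 ≤ NfC c κ₀ wf Fn ϑ J ∧ 1 ≤ ϑ * NfC c κ₀ wf Fn ϑ J := by
  refine ⟨by unfold NfC; omega, ?_⟩
  have h1 : 1 / ϑ ≤ ⌈1 / ϑ⌉₊ := Nat.le_ceil _
  have h2 : ((⌈1 / ϑ⌉₊ : ℕ) : ℝ) ≤ NfC c κ₀ wf Fn ϑ J := by
    exact_mod_cast (by unfold NfC; omega)
  have h3 : 1 / ϑ ≤ NfC c κ₀ wf Fn ϑ J := h1.trans h2
  rw [div_le_iff₀ hϑ] at h3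
  linarith

/-- **Selection of a consecutive window.** -/
theorem selC (c : GConst) (M : ℝ) (hMpos : 0 < M) (κ₀ : ℝ) (hκ₀ : 0 < κ₀) (wf : ℕ → ℕ)
    (hwf : ∀ R, 1 ≤ wf R) (Fn : ℕ → ℕ → ℕ) :
    ∃ N : ℕ, ∀ {k K V : Type} [Field k] [Field K] [Algebra k K]
    [DecidableEq K] (P : PSys k K V) (I : GInst P (noOde c N) N M), Nonempty (BlockC I κ₀ wf Fn) := by
  classical
  have hc0 := c.hc0
  have hC1 := c.hC1
  have hc1 := c.hc1
  have hδ0 := c.hδ0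
  set L : ℕ := c.depth M with hLdef
  have hL : 1 ≤ L := c.hdepth M
  set Cr : ℝ := 1 / c.δ0 + c.C1 / c.c1 with hCr
  have hCr0 : 0 < Cr := by
    have : 0 < 1 / c.δ0 := by positivity
    have : 0 < c.C1 / c.c1 := div_pos (by linarith) hc1
    positivity
  set κ : ℝ := min 1 (κ₀ / (1600 * Cr)) with hκdef
  have hκ : 0 < κ := lt_min one_pos (by positivity)
  have hκ1 : κ ≤ 1 := min_le_left _ _
  have hκ2 : κ * Cr ≤ κ₀ / 1600 := by
    have : κ ≤ κ₀ / (1600 * Cr) := min_le_right _ _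
    calc κ * Cr ≤ κ₀ / (1600 * Cr) * Cr := mul_le_mul_of_nonneg_right this hCr0.le
      _ = κ₀ / 1600 := by field_simp
  set Q : ℕ := Qf c κ₀ with hQdef
  have hQ1 : 1 ≤ Q := by rw [hQdef]; unfold Qf; omega
  have hQ2 : 4 * Cr ≤ κ₀ * Q := by
    have h1 : 4 * Cr / κ₀ ≤ ⌈4 * Cr / κ₀⌉₊ := Nat.le_ceil _
    have h2 : 4 * Cr / κ₀ ≤ Q := by
      rw [hQdef]; unfold Qf; rw [← hCr]; push_cast; linarith
    rw [div_le_iff₀ hκ₀] at h2
    linarith
  obtain ⟨ϑ, J, n0, hϑ, hsc⟩ := exists_scales' c.d L c.hd hL κ hκ hκ1 (NfC c κ₀ wf Fn)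
    (fun ϑ J h => NfC_spec c κ₀ wf Fn J h)
  set Kn : ℕ := ⌈((L : ℝ) + 1) / κ⌉₊ + 1 with hKn
  have hKnκ : ((L : ℝ) + 1) ≤ κ * Kn := by
    have h1 : ((L : ℝ) + 1) / κ ≤ ⌈((L : ℝ) + 1) / κ⌉₊ := Nat.le_ceil _
    have h2 : ((L : ℝ) + 1) / κ ≤ Kn := by rw [hKn]; push_cast; linarith
    rw [div_le_iff₀ hκ] at h2
    linarith
  set Nb : ℕ → ℕ := fun b => NfC c κ₀ wf Fn (ϑ b) (J b) with hNb
  set Wb : ℕ → ℕ := fun b => Q * wf (Rf c (ϑ b)) with hWb
  set need : ℕ → ℕ := fun b => n0 b + 2 * (Wb b + Nb b * J b + 1) with hneed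
  set n : ℕ := ∑ b ∈ range Kn, need b + 1 with hn
  set Nst : ℕ := ∏ b ∈ range Kn, (Wb b + Nb b * J b).factorial with hNst
  have hNst1 : 1 ≤ Nst := by
    apply Nat.one_le_iff_ne_zero.mpr
    rw [hNst, prod_ne_zero_iff]
    intro b _
    exact (Nat.factorial_pos _).ne'
  have hn1 : 1 ≤ n := by omega
  refine ⟨n + Nst, ?_⟩
  intro k K V _ _ _ _ P I
  set ρ : ℝ := ((I.rel n Nst).card : ℝ) with hρ
  have hρ0 : 0 ≤ ρ := Nat.cast_nonneg _
  -- choice of the scale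
  obtain ⟨b, hb, hunc⟩ : ∃ b ∈ range Kn,
      ∑ v ∈ I.rel n Nst, (((I.Lv v).unclean n (ϑ (b + 1) * n) (ϑ b * n)).card : ℝ) ≤ κ * n * ρ := by
    by_contra hcon
    push Not at hcon
    have h1 : ∑ b ∈ range Kn, ∑ v ∈ I.rel n Nst,
        (((I.Lv v).unclean n (ϑ (b + 1) * n) (ϑ b * n)).card : ℝ) ≤ ρ * ((L + 1) * n) := by
      rw [sum_comm, hρ, ← nsmul_eq_mul, ← sum_const]
      apply sum_le_sum
      intro v _
      have := sum_unclean (I.Lv v) ϑ (fun b => (hsc b).2.2.1) n Kn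
      exact_mod_cast this
    have h2 : ∑ b ∈ range Kn, κ * n * ρ < ∑ b ∈ range Kn, ∑ v ∈ I.rel n Nst,
        (((I.Lv v).unclean n (ϑ (b + 1) * n) (ϑ b * n)).card : ℝ) :=
      sum_lt_sum_of_nonempty (by rw [nonempty_range_iff]; omega) hcon
    rw [sum_const, card_range, nsmul_eq_mul] at h2
    have h3 : ρ * ((L + 1) * n) ≤ Kn * (κ * n * ρ) := by
      have h4 : 0 ≤ (n : ℝ) * ρ := by positivity
      have h5 : ((L : ℝ) + 1) * (n * ρ) ≤ κ * Kn * (n * ρ) := mul_le_mul_of_nonneg_right hKnκ h4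
      linarith
    linarith
  rw [mem_range] at hb
  obtain ⟨hJb, hϑ1, hϑ2, hcls⟩ := hsc b
  have hneedb : need b ≤ ∑ b ∈ range Kn, need b :=
    single_le_sum (f := need) (fun _ _ => Nat.zero_le _) (mem_range.mpr hb)
  have hneedb' : need b = n0 b + 2 * (Wb b + Nb b * J b + 1) := rfl
  have hn0b : n0 b ≤ n := by omega
  set N' : ℕ := Nb b with hN'
  set R : ℕ := Rf c (ϑ b) with hR
  set w : ℕ := wf R with hw
  have hw1 : 1 ≤ w := hwf R
  set W : ℕ := Wb b with hW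
  have hWeq : W = Q * w := rfl
  have hN'eq : N' = Fn W (J b) + ⌈1 / ϑ b⌉₊ + 1 := rfl
  have hdvd : ∀ δ, 1 ≤ δ → δ ≤ W + N' * J b → δ ∣ Nst := by
    intro δ h1 h2
    exact (Nat.dvd_factorial h1 h2).trans
      (dvd_prod_of_mem (fun b => (Wb b + Nb b * J b).factorial) (mem_range.mpr hb))
  -- the exceptional sets
  have hex := fun v => hcls n hn0b (I.Vx v) (I.Dr v) (I.S v) (I.Lv v)
  choose Bad hBadsub hBadcard hcl using hex
  have hBadcard' : ∀ v, ((Bad v).card : ℝ) ≤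
      (((I.Lv v).unclean n (ϑ (b + 1) * n) (ϑ b * n)).card : ℝ) + κ * n := fun v => hBadcard v
  have hBadsum : ∑ v ∈ I.rel n Nst, ((Bad v).card : ℝ) ≤ 2 * (κ * n * ρ) := by
    have h1 := sum_le_sum (s := I.rel n Nst) fun v _ => hBadcard' v
    rw [sum_add_distrib, sum_const, nsmul_eq_mul] at h1
    linarith
  set bf : ℕ → ℝ := fun j => (((I.rel n Nst).filter fun v => j ∈ Bad v).card : ℝ) with hbf
  have hbf0 : ∀ j, 0 ≤ bf j := fun j => Nat.cast_nonneg _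
  have hbfsum : ∑ j ∈ range n, bf j ≤ 2 * (κ * ρ) * n := by
    have h1 := sum_card_swap (I.rel n Nst) (range n) (fun j v => j ∈ Bad v)
    have h2 : ∑ v ∈ I.rel n Nst, (((range n).filter fun i => i ∈ Bad v).card : ℝ) ≤
        ∑ v ∈ I.rel n Nst, ((Bad v).card : ℝ) := by
      apply sum_le_sum
      intro v _
      exact_mod_cast card_le_card (fun j hj => (mem_filter.mp hj).2)
    rw [← h1] at h2
    calc ∑ j ∈ range n, bf j ≤ ∑ v ∈ I.rel n Nst, ((Bad v).card : ℝ) := h2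
      _ ≤ 2 * (κ * n * ρ) := hBadsum
      _ = 2 * (κ * ρ) * n := by ring
  set n1 : ℕ := n - (W + N' * J b + 1) with hn1def
  obtain ⟨i, hi, hisum⟩ := exists_start bf n W n1 (κ * ρ) (by positivity) hbf0 hbfsum (by omega)
    (by omega) (by omega)
  set Ss : ℕ → Finset V := fun s => (I.rel n Nst).filter fun v =>
    i + s ∉ Bad v ∧ i + s ∉ (I.Lv v).heavy n (ϑ b * n) with hSs
  obtain ⟨q, hq, hqB, hqF⟩ := exists_window (I.rel n Nst) bf i w Q κ hκ hbf0 hw1 hQ1 (by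
    rw [← hWeq]; exact hisum) Ss
  set a : ℕ := i + q * w with ha
  have haW : a + w ≤ i + W := by
    have : (q + 1) * w ≤ Q * w := Nat.mul_le_mul_right _ hq
    rw [Nat.add_mul, one_mul] at this
    omega
  obtain ⟨hRs1, hRs2, hRs3⟩ := Rf_spec c (ϑ := ϑ b)
  rw [← hR] at hRs1 hRs2 hRs3
  have hrelcard := I.card_rel (n := n) (Nst := Nst) le_rfl hNst1
  have hrelcard' : ρ ≤ Cr * I.h := hrelcard
  -- the dense set of good indices
  set Λ : Finset ℕ := (Ico a (a + w)).filter fun j => ¬ (80 * (κ * ρ) < bf j) with hΛ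
  have hΛc : 9 * w ≤ 10 * Λ.card := by
    have hmk := markov (Ico a (a + w)) bf (fun j _ => hbf0 j) (B := 8 * (w : ℝ)) (t := κ * ρ)
      (by positivity) (by linarith) (by positivity) 80 (by norm_num)
    have h1 := card_filter_add_card_filter_not (s := Ico a (a + w)) (fun j => 80 * (κ * ρ) < bf j)
    rw [Nat.card_Ico, Nat.add_sub_cancel_left] at h1
    have h2 : (((Ico a (a + w)).filter fun j => 80 * (κ * ρ) < bf j).card : ℝ) + Λ.card = w := by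
      exact_mod_cast h1
    have h3 : (9 * w : ℝ) ≤ 10 * Λ.card := by linarith
    exact_mod_cast h3
  refine ⟨⟨n, Nst, hn1, hNst1, le_rfl, R, W, J b, N', i, a, hRs2, hRs3, hJb, by rw [hN'eq]; omega,
    by omega, haW, by omega, Ss, fun s => filter_subset _ _, ?_, hdvd, Λ, filter_subset _ _, hΛc, ?_⟩⟩
  · intro s hs v hv
    obtain ⟨-, h1, h2⟩ := mem_filter.mp hv
    exact (hcl v (i + s) (by omega) h1 h2).1
  · intro Y hY hYc hdet Sb hSb hstar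
    obtain ⟨Hg, Loss, e1, e2, e3, e4, e5, e6⟩ := claimC I hMpos (n := n) (Nst := Nst) le_rfl hn1
      (R := R) (ϑ := ϑ b) (hϑ b).1 hRs1 hRs2 Bad (i := i) (W := W) (w := w) (a := a) (by omega) haW
      (by omega) (fun δ h1 h2 => hdvd δ h1 (by omega)) hNst1 Ss (by
        intro s hs v hv hvs
        by_contra hno
        push Not at hno
        exact hvs (mem_filter.mpr ⟨hv, hno⟩)) Y (hY.trans (filter_subset _ _)) hYc hdet
      (2 * (I.rel n Nst).card / Q) (80 * (κ * ρ)) hqF (by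
        intro j hj B hB hB'
        have h1 := (mem_filter.mp (hY hj)).2
        push Not at h1
        refine le_trans ?_ h1
        have h2 : (B.card : ℝ) ≤ (((I.rel n Nst).filter fun v => j ∈ Bad v).card : ℝ) := by
          exact_mod_cast card_le_card (fun v hv => mem_filter.mpr ⟨hB hv, hB' v hv⟩ :
            B ⊆ (I.rel n Nst).filter fun v => j ∈ Bad v)
        exact h2) Sb hSb hstar
    refine ⟨Hg, Loss, e1, e2, e3, ?_, e5, e6⟩
    refine e4.trans ?_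
    have hh := I.h_nonneg
    have h1 : 2 * ρ / Q ≤ κ₀ / 2 * I.h := by
      have hQr : (0 : ℝ) < Q := by exact_mod_cast hQ1
      rw [div_le_iff₀ hQr]
      have h2 : 2 * ρ ≤ 2 * (Cr * I.h) := by linarith
      have h3 : 4 * Cr * I.h ≤ κ₀ * Q * I.h := mul_le_mul_of_nonneg_right hQ2 hh
      linarith
    have h2 : 10 * (80 * (κ * ρ)) ≤ κ₀ / 2 * I.h := by
      have h3 : κ * ρ ≤ κ * (Cr * I.h) := mul_le_mul_of_nonneg_left hrelcard' hκ.le
      have h4 : κ * Cr * I.h ≤ κ₀ / 1600 * I.h := mul_le_mul_of_nonneg_right hκ2 hh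
      linarith
    linarith

end Pool.Agent.Helper33.PT
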